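import Mathlib

/-! Finite averages and the discrete cube. -/

namespace H831Z.Un

open Finset

section Avg

variable {Ω Ω' : Type*} [Fintype Ω] [Fintype Ω']
variable {H : Type*} [NormedAddCommGroup H] [NormedSpace ℝ H]

/-- The uniform average over a finite type. -/
noncomputable def avg (f : Ω → H) : H := (Fintype.card Ω : ℝ)⁻¹ • ∑ ω, f ω

lemma avg_add (f g : Ω → H) : avg (fun ω => f ω + g ω) = avg f + avg g := by
  simp [avg, sum_add_distrib]

lemma avg_sub (f g : Ω → H) : avg (fun ω => f ω - g ω) = avg f - avg g := by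
  simp [avg, sum_sub_distrib, smul_sub]

lemma avg_smul (c : ℝ) (f : Ω → H) : avg (fun ω => c • f ω) = c • avg f := by
  simp only [avg, ← smul_sum]; rw [smul_comm]

lemma avg_mul (c : ℝ) (f : Ω → ℝ) : avg (fun ω => c * f ω) = c * avg f := by
  simpa using avg_smul c f

lemma avg_mul' (c : ℝ) (f : Ω → ℝ) : avg (fun ω => f ω * c) = avg f * c := by
  simpa [mul_comm] using avg_mul c f

lemma avg_const [Nonempty Ω] (c : H) : avg (fun _ : Ω => c) = c := by
  have : (Fintype.card Ω : ℝ) ≠ 0 := by exact_mod_cast Fintype.card_ne_zero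
  simp only [avg, sum_const, card_univ]
  rw [← Nat.cast_smul_eq_nsmul ℝ, smul_smul, inv_mul_cancel₀ this, one_smul]

lemma avg_sum {T : Type*} (s : Finset T) (f : T → Ω → H) :
    avg (fun ω => ∑ t ∈ s, f t ω) = ∑ t ∈ s, avg (f t) := by
  simp only [avg, ← smul_sum]; rw [sum_comm]

lemma avg_comm (f : Ω → Ω' → H) :
    avg (fun ω => avg (fun ω' => f ω ω')) = avg (fun ω' => avg (fun ω => f ω ω')) := by
  simp only [avg, ← smul_sum]; rw [sum_comm, smul_comm]

lemma avg_map {H' : Type*} [NormedAddCommGroup H'] [NormedSpace ℝ H'] (L : H →ₗ[ℝ] H')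
    (f : Ω → H) : L (avg f) = avg (fun ω => L (f ω)) := by
  simp [avg, map_sum]

lemma avg_equiv (e : Ω ≃ Ω') (f : Ω' → H) : avg (fun ω => f (e ω)) = avg f := by
  simp only [avg]; rw [Fintype.card_congr e, e.sum_comp]

lemma avg_prod (f : Ω × Ω' → H) : avg f = avg (fun ω => avg (fun ω' => f (ω, ω'))) := by
  simp only [avg, ← smul_sum, smul_smul, Fintype.card_prod, Nat.cast_mul, mul_inv,
    Fintype.sum_prod_type]

lemma avg_mono {f g : Ω → ℝ} (h : ∀ ω, f ω ≤ g ω) : avg f ≤ avg g := by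
  simp only [avg, smul_eq_mul]
  exact mul_le_mul_of_nonneg_left (sum_le_sum fun ω _ => h ω) (by positivity)

lemma avg_nonneg {f : Ω → ℝ} (h : ∀ ω, 0 ≤ f ω) : 0 ≤ avg f := by
  simp only [avg, smul_eq_mul]
  exact mul_nonneg (by positivity) (sum_nonneg fun ω _ => h ω)

lemma avg_le [Nonempty Ω] {f : Ω → ℝ} {c : ℝ} (h : ∀ ω, f ω ≤ c) : avg f ≤ c :=
  (avg_mono h).trans (avg_const c).le

lemma norm_avg_le (f : Ω → H) : ‖avg f‖ ≤ avg (fun ω => ‖f ω‖) := by
  simp only [avg, smul_eq_mul, norm_smul, norm_inv, Real.norm_natCast]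
  exact mul_le_mul_of_nonneg_left (norm_sum_le _ _) (by positivity)

lemma norm_avg_le_of_le [Nonempty Ω] {f : Ω → H} {c : ℝ} (h : ∀ ω, ‖f ω‖ ≤ c) : ‖avg f‖ ≤ c :=
  (norm_avg_le f).trans (avg_le h)

lemma abs_avg_le (f : Ω → ℝ) : |avg f| ≤ avg (fun ω => |f ω|) := by
  simpa using norm_avg_le f

lemma avg_var_le [Nonempty Ω] (g : Ω → ℝ) (c : ℝ) :
    avg (fun ω => g ω ^ 2) - avg g ^ 2 ≤ avg (fun ω => (g ω - c) ^ 2) := by
  have h : avg (fun ω => (g ω - c) ^ 2) = avg (fun ω => g ω ^ 2) - 2 * c * avg g + c ^ 2 := by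
    have : (fun ω => (g ω - c) ^ 2) = fun ω => (g ω ^ 2 - (2 * c) * g ω) + c ^ 2 := by
      funext ω; ring
    rw [this, avg_add, avg_sub, avg_mul, avg_const]
  rw [h]; nlinarith [sq_nonneg (avg g - c)]

lemma sq_avg_le [Nonempty Ω] (g : Ω → ℝ) : avg g ^ 2 ≤ avg (fun ω => g ω ^ 2) := by
  have h : avg (fun ω => (g ω - avg g) ^ 2) = avg (fun ω => g ω ^ 2) - avg g ^ 2 := by
    have : (fun ω => (g ω - avg g) ^ 2) =
        fun ω => (g ω ^ 2 - (2 * avg g) * g ω) + avg g ^ 2 := by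
      funext ω; ring
    rw [this, avg_add, avg_sub, avg_mul, avg_const]; ring
  have h0 : 0 ≤ avg (fun ω => (g ω - avg g) ^ 2) := avg_nonneg fun ω => sq_nonneg _
  linarith

lemma norm_avg_sq_le [Nonempty Ω] (f : Ω → H) : ‖avg f‖ ^ 2 ≤ avg (fun ω => ‖f ω‖ ^ 2) :=
  (pow_le_pow_left₀ (norm_nonneg _) (norm_avg_le f) 2).trans (sq_avg_le _)

/-- Jensen for `|t| ^ p`. -/
lemma abs_avg_rpow_le [Nonempty Ω] {p : ℝ} (hp : 1 ≤ p) (g : Ω → ℝ) :
    |avg g| ^ p ≤ avg (fun ω => |g ω| ^ p) := by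
  have hc : (0 : ℝ) < Fintype.card Ω := by exact_mod_cast Fintype.card_pos
  have h1 : |avg g| ^ p ≤ avg (fun ω => |g ω|) ^ p :=
    Real.rpow_le_rpow (abs_nonneg _) (abs_avg_le g) (by linarith)
  refine h1.trans ?_
  have := Real.rpow_arith_mean_le_arith_mean_rpow (univ : Finset Ω)
    (fun _ => (Fintype.card Ω : ℝ)⁻¹) (fun ω => |g ω|) (fun _ _ => by positivity)
    (by simp [hc.ne']) (fun _ _ => abs_nonneg _) hp
  simpa [avg, mul_sum] using this

end Avg

section Cube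

variable {ι : Type*} [Fintype ι] [DecidableEq ι]

/-- The sign of a Boolean. -/
def sg (b : Bool) : ℝ := if b then 1 else -1

lemma sg_sq (b : Bool) : sg b ^ 2 = 1 := by cases b <;> simp [sg]
lemma sg_mul_self (b : Bool) : sg b * sg b = 1 := by cases b <;> simp [sg]
lemma abs_sg (b : Bool) : |sg b| = 1 := by cases b <;> simp [sg]
lemma sg_not (b : Bool) : sg (!b) = - sg b := by cases b <;> simp [sg]

lemma avg_cube_prod (g : ι → Bool → ℝ) :
    avg (fun ε : ι → Bool => ∏ i, g i (ε i)) = ∏ i, ((g i true + g i false) / 2) := by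
  simp only [avg, smul_eq_mul]
  have := Finset.prod_univ_sum (fun _ : ι => (univ : Finset Bool)) g
  rw [Fintype.piFinset_univ] at this
  rw [← this]
  rw [prod_div_distrib]
  simp [div_eq_inv_mul]

/-- flipping coordinate `i` -/
def flipAt (i : ι) : (ι → Bool) ≃ (ι → Bool) where
  toFun ε := Function.update ε i (!ε i)
  invFun ε := Function.update ε i (!ε i)
  left_inv ε := by simp
  right_inv ε := by simp

lemma avg_sg (i : ι) : avg (fun ε : ι → Bool => sg (ε i)) = 0 := by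
  have h := avg_equiv (flipAt i) (fun ε : ι → Bool => sg (ε i))
  have h2 : (fun ε : ι → Bool => sg (flipAt i ε i)) = fun ε => (-1 : ℝ) * sg (ε i) := by
    funext ε; simp [flipAt, sg_not]
  rw [h2, avg_mul] at h; linarith

lemma avg_sg_mul (i j : ι) :
    avg (fun ε : ι → Bool => sg (ε i) * sg (ε j)) = if i = j then 1 else 0 := by
  split_ifs with hij
  · subst hij; simp only [sg_mul_self]; exact avg_const _
  · have h := avg_equiv (flipAt i) (fun ε : ι → Bool => sg (ε i) * sg (ε j))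
    have h2 : (fun ε : ι → Bool => sg (flipAt i ε i) * sg (flipAt i ε j)) =
        fun ε => (-1 : ℝ) * (sg (ε i) * sg (ε j)) := by
      funext ε; simp [flipAt, sg_not, Function.update_of_ne (Ne.symm hij)]
    rw [h2, avg_mul] at h; linarith

lemma avg_lin (b : ι → ℝ) : avg (fun ε : ι → Bool => ∑ i, b i * sg (ε i)) = 0 := by
  rw [avg_sum]; simp [avg_mul, avg_sg]

lemma avg_lin_mul (b : ι → ℝ) (j : ι) :
    avg (fun ε : ι → Bool => sg (ε j) * ∑ i, b i * sg (ε i)) = b j := by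
  have : (fun ε : ι → Bool => sg (ε j) * ∑ i, b i * sg (ε i)) =
      fun ε => ∑ i, b i * (sg (ε j) * sg (ε i)) := by
    funext ε; rw [mul_sum]; exact sum_congr rfl fun i _ => by ring
  rw [this, avg_sum]; simp [avg_mul, avg_sg_mul]

lemma avg_lin_sq (b : ι → ℝ) :
    avg (fun ε : ι → Bool => (∑ i, b i * sg (ε i)) ^ 2) = ∑ i, b i ^ 2 := by
  have : (fun ε : ι → Bool => (∑ i, b i * sg (ε i)) ^ 2) =
      fun ε => ∑ j, b j * (sg (ε j) * ∑ i, b i * sg (ε i)) := by
    funext ε; rw [sq, sum_mul]; exact sum_congr rfl fun i _ => by ring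
  rw [this, avg_sum]; simp only [avg_mul, avg_lin_mul, sq]

/-- Bessel's inequality for degrees zero and one on the cube. -/
lemma bessel (g : (ι → Bool) → ℝ) :
    avg g ^ 2 + ∑ i, avg (fun ε => sg (ε i) * g ε) ^ 2 ≤ avg (fun ε => g ε ^ 2) := by
  set b : ι → ℝ := fun i => avg (fun ε => sg (ε i) * g ε) with hb
  set a := avg g with ha
  have h0 : 0 ≤ avg (fun ε : ι → Bool => (g ε - a - ∑ i, b i * sg (ε i)) ^ 2) :=
    avg_nonneg fun _ => sq_nonneg _
  have e : (fun ε : ι → Bool => (g ε - a - ∑ i, b i * sg (ε i)) ^ 2) = fun ε =>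
      ((((g ε ^ 2 + a ^ 2) + (∑ i, b i * sg (ε i)) ^ 2) - (2 * a) * g ε) -
        2 * ∑ i, b i * (sg (ε i) * g ε)) + (2 * a) * ∑ i, b i * sg (ε i) := by
    funext ε
    have : ∑ i, b i * (sg (ε i) * g ε) = (∑ i, b i * sg (ε i)) * g ε := by
      rw [sum_mul]; exact sum_congr rfl fun i _ => by ring
    rw [this]; ring
  rw [e, avg_add, avg_sub, avg_sub, avg_add, avg_add, avg_mul, avg_mul, avg_mul, avg_lin,
    avg_lin_sq, avg_const, avg_sum] at h0
  simp only [avg_mul] at h0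
  have : ∑ i, b i * avg (fun ε => sg (ε i) * g ε) = ∑ i, b i ^ 2 :=
    sum_congr rfl fun i _ => by rw [sq]
  rw [this, ← ha] at h0
  linarith

lemma avg_exp_le (x : ι → ℝ) :
    avg (fun ε : ι → Bool => Real.exp (∑ i, x i * sg (ε i))) ≤ Real.exp ((∑ i, x i ^ 2) / 2) := by
  have : (fun ε : ι → Bool => Real.exp (∑ i, x i * sg (ε i))) =
      fun ε => ∏ i, (fun i b => Real.exp (x i * sg b)) i (ε i) := by
    funext ε; rw [Real.exp_sum]
  rw [this, avg_cube_prod (fun i b => Real.exp (x i * sg b)), sum_div, Real.exp_sum]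
  refine prod_le_prod (fun i _ => by positivity) fun i _ => ?_
  have := Real.cosh_le_exp_half_sq (x i)
  rw [Real.cosh_eq] at this
  simpa [sg] using this

/-- A union bound: signs making finitely many linear forms small. -/
lemma exists_signs {Q : Type*} (s : Finset Q) (x : Q → ι → ℝ) {σ2 δ lam : ℝ} (hlam : 0 ≤ lam)
    (hx : ∀ q ∈ s, ∑ i, x q i ^ 2 ≤ σ2)
    (h : 2 * (s.card : ℝ) * Real.exp (lam ^ 2 * σ2 / 2 - lam * δ) < 1) :
    ∃ ε : ι → Bool, ∀ q ∈ s, |∑ i, x q i * sg (ε i)| ≤ δ := by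
  by_contra hcon
  push Not at hcon
  have h1 : ∀ ε : ι → Bool, (1 : ℝ) ≤ ∑ q ∈ s, Real.exp (-(lam * δ)) *
      (Real.exp (∑ i, (lam * x q i) * sg (ε i)) + Real.exp (∑ i, (-lam * x q i) * sg (ε i))) := by
    intro ε
    obtain ⟨q, hq, hlt⟩ := hcon ε
    refine le_trans ?_ (single_le_sum (f := fun q => Real.exp (-(lam * δ)) *
      (Real.exp (∑ i, (lam * x q i) * sg (ε i)) + Real.exp (∑ i, (-lam * x q i) * sg (ε i))))
      (fun q _ => by positivity) hq)
    have e1 : ∑ i, (lam * x q i) * sg (ε i) = lam * ∑ i, x q i * sg (ε i) := by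
      rw [mul_sum]; exact sum_congr rfl fun i _ => by ring
    have e2 : ∑ i, (-lam * x q i) * sg (ε i) = -(lam * ∑ i, x q i * sg (ε i)) := by
      rw [mul_sum, ← sum_neg_distrib]; exact sum_congr rfl fun i _ => by ring
    simp only [e1, e2]
    set t := ∑ i, x q i * sg (ε i)
    rw [mul_add, ← Real.exp_add, ← Real.exp_add]
    rcases le_or_gt 0 t with ht | ht
    · rw [abs_of_nonneg ht] at hlt
      have : 1 ≤ Real.exp (-(lam * δ) + lam * t) := Real.one_le_exp (by nlinarith)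
      linarith [Real.exp_pos (-(lam * δ) + -(lam * t))]
    · rw [abs_of_neg ht] at hlt
      have : 1 ≤ Real.exp (-(lam * δ) + -(lam * t)) := Real.one_le_exp (by nlinarith)
      linarith [Real.exp_pos (-(lam * δ) + lam * t)]
  have h2 := avg_mono h1
  rw [avg_const, avg_sum] at h2
  have h3 : ∀ q ∈ s, avg (fun ε : ι → Bool => Real.exp (-(lam * δ)) *
      (Real.exp (∑ i, (lam * x q i) * sg (ε i)) + Real.exp (∑ i, (-lam * x q i) * sg (ε i)))) ≤
      2 * Real.exp (lam ^ 2 * σ2 / 2 - lam * δ) := by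
    intro q hq
    rw [avg_mul, avg_add]
    have hq' := hx q hq
    have a1 := avg_exp_le (fun i => lam * x q i)
    have a2 := avg_exp_le (fun i => -lam * x q i)
    have b1 : ∑ i, (lam * x q i) ^ 2 ≤ lam ^ 2 * σ2 := by
      simp only [mul_pow, ← mul_sum]; exact mul_le_mul_of_nonneg_left hq' (sq_nonneg _)
    have b2 : ∑ i, (-lam * x q i) ^ 2 ≤ lam ^ 2 * σ2 := by
      simp only [mul_pow, ← mul_sum, neg_sq]; exact mul_le_mul_of_nonneg_left hq' (sq_nonneg _)
    have c1 := a1.trans (Real.exp_le_exp.2 (div_le_div_of_nonneg_right b1 (by norm_num)))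
    have c2 := a2.trans (Real.exp_le_exp.2 (div_le_div_of_nonneg_right b2 (by norm_num)))
    rw [sub_eq_add_neg, Real.exp_add]
    nlinarith [Real.exp_pos (-(lam * δ))]
  have h4 := h2.trans (sum_le_sum h3)
  rw [sum_const, nsmul_eq_mul] at h4
  linarith

end Cube

end H831Z.Un
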