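import Pool.Agent.H831Z.UAvg

/-! Box smoothing and linear approximation in coordinate directions. -/

namespace H831Z.Un

open Finset

variable {E : Type*} [NormedAddCommGroup E] [NormedSpace ℝ E]
variable {H : Type*} [NormedAddCommGroup H] [NormedSpace ℝ H]
variable {κ : Type*} [Fintype κ] [DecidableEq κ]

/-- The random box vector. -/
noncomputable def bx (e : κ → E) {m : ℕ} (t : κ → Fin m) : E := ∑ j, ((t j : ℕ) : ℝ) • e j

/-- The box average. -/
noncomputable def Qb (e : κ → E) (m : ℕ) (f : E → H) (x : E) : H :=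
  avg fun t : κ → Fin m => f (x + bx e t)

/-- resampling one coordinate -/
def resamp (j : κ) (α : Type*) : ((κ → α) × α) ≃ ((κ → α) × α) where
  toFun q := (Function.update q.1 j q.2, q.1 j)
  invFun q := (Function.update q.1 j q.2, q.1 j)
  left_inv q := by simp
  right_inv q := by simp

lemma avg_resamp {α : Type*} [Fintype α] [Nonempty α] (j : κ) (G : (κ → α) → H) :
    avg G = avg fun t : κ → α => avg fun s : α => G (Function.update t j s) := by
  have h1 : avg (fun q : (κ → α) × α => G q.1) = avg G := by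
    rw [avg_prod]; simp only [avg_const]
  rw [← h1, ← avg_equiv (resamp j α), avg_prod]
  rfl

lemma bx_update (e : κ → E) {m : ℕ} (t : κ → Fin m) (j : κ) (s : Fin m) :
    bx e (Function.update t j s) = (∑ i ∈ univ.erase j, ((t i : ℕ) : ℝ) • e i) +
      ((s : ℕ) : ℝ) • e j := by
  unfold bx
  rw [← sum_erase_add _ _ (mem_univ j)]
  congr 1
  · exact sum_congr rfl fun i hi => by rw [Function.update_of_ne (ne_of_mem_erase hi)]
  · simp

lemma avg_telescope {m : ℕ} (g : ℕ → H) :
    avg (fun s : Fin m => g (s + 1) - g s) = (m : ℝ)⁻¹ • (g m - g 0) := by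
  simp only [avg, Fintype.card_fin]
  rw [Fin.sum_univ_eq_sum_range (fun s => g (s + 1) - g s) m, sum_range_sub]

lemma Qb_diff (e : κ → E) {m : ℕ} [NeZero m] (f : E → H) (x : E) (j : κ) :
    Qb e m f (x + e j) - Qb e m f x = (m : ℝ)⁻¹ • avg fun t : κ → Fin m =>
      f (x + (∑ i ∈ univ.erase j, ((t i : ℕ) : ℝ) • e i) + (m : ℝ) • e j) -
        f (x + ∑ i ∈ univ.erase j, ((t i : ℕ) : ℝ) • e i) := by
  unfold Qb
  rw [← avg_sub, avg_resamp j, ← avg_smul]
  congr 1; funext t
  have := avg_telescope (m := m)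
    (fun s : ℕ => f (x + (∑ i ∈ univ.erase j, ((t i : ℕ) : ℝ) • e i) + (s : ℝ) • e j))
  simp only [Nat.cast_zero, zero_smul, add_zero] at this
  rw [← this]
  congr 1; funext s
  rw [bx_update]
  congr 2
  · push_cast; rw [add_smul, one_smul]; abel
  · abel

lemma norm_Qb_diff_le (e : κ → E) {m : ℕ} [NeZero m] (f : E → H) {s : ℝ} (j : κ)
    (h : ∀ x, ‖f (x + (m : ℝ) • e j) - f x‖ ≤ s) (x : E) :
    ‖Qb e m f (x + e j) - Qb e m f x‖ ≤ s / m := by
  rw [Qb_diff, norm_smul, norm_inv, Real.norm_natCast, div_eq_inv_mul]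
  exact mul_le_mul_of_nonneg_left (norm_avg_le_of_le fun t => h _) (by positivity)

lemma Qb_sub_shift (e : κ → E) (m : ℕ) (f : E → H) (v x : E) :
    Qb e m f (x + v) - Qb e m f x = Qb e m (fun z => f (z + v) - f z) x := by
  unfold Qb
  rw [← avg_sub]; simp only [add_right_comm]

/-- Second differences of the twice smoothed function. -/
lemma second_diff (e : κ → E) {m : ℕ} [NeZero m] (f : E → H) {s : ℝ}
    (h : ∀ x j, ‖f (x + (m : ℝ) • e j) - f x‖ ≤ s) (j j' : κ) (x : E) :
    ‖(Qb e m (Qb e m f) (x + e j + e j') - Qb e m (Qb e m f) (x + e j)) -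
      (Qb e m (Qb e m f) (x + e j') - Qb e m (Qb e m f) x)‖ ≤ 2 * s / m / m := by
  rw [Qb_sub_shift, Qb_sub_shift]
  refine norm_Qb_diff_le e _ j (fun z => ?_) x
  refine (norm_sub_le _ _).trans ?_
  have h1 := norm_Qb_diff_le e f j' (fun x => h x j') (z + (m : ℝ) • e j)
  have h2 := norm_Qb_diff_le e f j' (fun x => h x j') z
  have : 2 * s / m = s / m + s / m := by ring
  linarith

omit [Fintype κ] [DecidableEq κ] [NormedSpace ℝ H] in
lemma steps_le (e : κ → E) (g : E → H) {s : ℝ} (h : ∀ x j, ‖g (x + e j) - g x‖ ≤ s)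
    (x : E) (b : Bool) (j : κ) : ‖g (x + sg b • e j) - g x‖ ≤ s := by
  cases b
  · have := h (x + sg false • e j) j
    rw [norm_sub_rev]
    simpa [sg] using this
  · simpa [sg] using h x j

omit [Fintype κ] [DecidableEq κ] [NormedSpace ℝ H] in
lemma path_le {T : Type*} (e : κ → E) (g : E → H) {s : ℝ} (h : ∀ x j, ‖g (x + e j) - g x‖ ≤ s)
    (σ : T → Bool) (idx : T → κ) (x : E) (S : Finset T) :
    ‖g (x + ∑ t ∈ S, sg (σ t) • e (idx t)) - g x‖ ≤ S.card * s := by
  classical
  induction S using Finset.induction_on with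
  | empty => simp
  | insert a S ha ih =>
    rw [sum_insert ha, card_insert_of_notMem ha]
    have h1 := steps_le e g h (x + ∑ t ∈ S, sg (σ t) • e (idx t)) (σ a) (idx a)
    have : x + (sg (σ a) • e (idx a) + ∑ t ∈ S, sg (σ t) • e (idx t)) =
        x + ∑ t ∈ S, sg (σ t) • e (idx t) + sg (σ a) • e (idx a) := by abel
    rw [this]
    have h2 := norm_add_le (g (x + ∑ t ∈ S, sg (σ t) • e (idx t) + sg (σ a) • e (idx a)) -
      g (x + ∑ t ∈ S, sg (σ t) • e (idx t))) (g (x + ∑ t ∈ S, sg (σ t) • e (idx t)) - g x)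
    rw [sub_add_sub_cancel] at h2
    push_cast; linarith

omit [Fintype κ] [DecidableEq κ] in
/-- Linear approximation along a path of signed unit steps. -/
lemma lin_approx {T : Type*} (e : κ → E) (G : E → H) {s : ℝ} (hs : 0 ≤ s)
    (h : ∀ j' x j, ‖(G (x + e j + e j') - G (x + e j)) - (G (x + e j') - G x)‖ ≤ s)
    (σ : T → Bool) (idx : T → κ) (x : E) (S : Finset T) :
    ‖G (x + ∑ t ∈ S, sg (σ t) • e (idx t)) - G x -
      ∑ t ∈ S, sg (σ t) • (G (x + e (idx t)) - G x)‖ ≤ (S.card : ℝ) ^ 2 * s := by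
  classical
  induction S using Finset.induction_on with
  | empty => simp
  | insert a S ha ih =>
    rw [sum_insert ha, sum_insert ha, card_insert_of_notMem ha]
    set w := ∑ t ∈ S, sg (σ t) • e (idx t) with hw
    have hp := path_le e (fun z => G (z + e (idx a)) - G z) (h (idx a)) σ idx x S
    rw [← hw] at hp
    have key : ‖G (x + w + sg (σ a) • e (idx a)) - G (x + w) -
        sg (σ a) • (G (x + e (idx a)) - G x)‖ ≤ (S.card + 1) * s := by
      cases hb : σ a
      · have h1 := steps_le e (fun z => G (z + e (idx a)) - G z) (h (idx a)) (x + w) false (idx a)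
        have e1 : x + w + sg false • e (idx a) + e (idx a) = x + w := by simp [sg]
        simp only [e1] at h1
        have e2 : G (x + w + sg false • e (idx a)) - G (x + w) -
            sg false • (G (x + e (idx a)) - G x) =
            -((G (x + w) - G (x + w + sg false • e (idx a)) - (G (x + w + e (idx a)) - G (x + w))) +
              (G (x + w + e (idx a)) - G (x + w) - (G (x + e (idx a)) - G x))) := by
          simp only [sg, Bool.false_eq_true, if_false, neg_smul, one_smul]; abel
        rw [e2, norm_neg]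
        refine (norm_add_le _ _).trans ?_
        linarith
      · simp only [sg, if_true, one_smul]
        linarith
    have e3 : G (x + (sg (σ a) • e (idx a) + w)) - G x - (sg (σ a) • (G (x + e (idx a)) - G x) +
        ∑ t ∈ S, sg (σ t) • (G (x + e (idx t)) - G x)) =
        (G (x + w + sg (σ a) • e (idx a)) - G (x + w) - sg (σ a) • (G (x + e (idx a)) - G x)) +
        (G (x + w) - G x - ∑ t ∈ S, sg (σ t) • (G (x + e (idx t)) - G x)) := by
      rw [add_comm (sg (σ a) • e (idx a)) w, ← add_assoc]; abel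
    rw [e3]
    refine (norm_add_le _ _).trans ?_
    have : (0 : ℝ) ≤ S.card * s := by positivity
    push_cast; nlinarith

end H831Z.Un
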