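import Pool.Agent.H831Z.ULoc

/-! The main inequality. -/

namespace H831Z.Un

open Finset

variable {E : Type*} [NormedAddCommGroup E] [NormedSpace ℝ E]
variable {ι κ Ω : Type*} [Fintype ι] [DecidableEq ι] [Fintype κ] [DecidableEq κ] [Fintype Ω]

omit [DecidableEq κ] in
lemma norm_le_coords {p ν B : ℝ} (hp0 : 0 < p) (e : κ → E)
    (he : ∀ x : κ → ℝ, ‖∑ j, x j • e j‖ ^ p = ∑ j, |x j| ^ p) (hν : 0 ≤ ν)
    (hνp : ν ^ p = Fintype.card κ) (hB : 0 ≤ B) (x : κ → ℝ) (hx : ∀ j, |x j| ≤ B) :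
    ‖∑ j, x j • e j‖ ≤ ν * B := by
  rw [← Real.rpow_le_rpow_iff (norm_nonneg _) (mul_nonneg hν hB) hp0, he, Real.mul_rpow hν hB, hνp]
  refine le_trans (sum_le_sum (g := fun _ => B ^ p) fun j _ => ?_) (by simp)
  exact Real.rpow_le_rpow (abs_nonneg _) (hx j) hp0.le

omit [DecidableEq κ] in
lemma norm_bx_le {p ν : ℝ} (hp0 : 0 < p) (e : κ → E)
    (he : ∀ x : κ → ℝ, ‖∑ j, x j • e j‖ ^ p = ∑ j, |x j| ^ p) (hν : 0 ≤ ν)
    (hνp : ν ^ p = Fintype.card κ) {m : ℕ} (t t' : κ → Fin m) :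
    ‖bx e t + bx e t'‖ ≤ ν * (2 * m) := by
  rw [bx, bx, ← sum_add_distrib]
  simp only [← add_smul]
  refine norm_le_coords hp0 e he hν hνp (by positivity) _ fun j => ?_
  have h1 : ((t j : ℕ) : ℝ) ≤ m := by exact_mod_cast (t j).2.le
  have h2 : ((t' j : ℕ) : ℝ) ≤ m := by exact_mod_cast (t' j).2.le
  rw [abs_of_nonneg (by positivity)]; linarith

lemma norm_e {p : ℝ} (hp0 : 0 < p) (e : κ → E)
    (he : ∀ x : κ → ℝ, ‖∑ j, x j • e j‖ ^ p = ∑ j, |x j| ^ p) (c : ℝ) (j : κ) :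
    ‖c • e j‖ ^ p = |c| ^ p := by
  have := he (Pi.single j c)
  rw [sum_eq_single j (fun i _ hi => by simp [hi]) (by simp),
    sum_eq_single j (fun i _ hi => by simp [hi, Real.zero_rpow hp0.ne']) (by simp)] at this
  simpa using this

omit [DecidableEq ι] in
lemma sum_sg_sq (σ : ι → Bool) (c : ℝ) :
    ∑ i, (c * sg (σ i)) ^ 2 = c ^ 2 * Fintype.card ι := by
  simp [mul_pow, sg_sq, mul_comm]

omit [DecidableEq ι] in
lemma dot_mul (c : ℝ) (a : ι → ℝ) (y : ι → ℤ) : dot (fun i => c * a i) y = c * dot a y := by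
  simp [dot, mul_sum, mul_assoc]

omit [DecidableEq ι] in
lemma abs_dot_le (σ : ι → Bool) (y : ι → ℤ) {k : ℕ} (hy : ∀ i, |y i| ≤ k) :
    |dot (fun i => sg (σ i)) y| ≤ Fintype.card ι * k := by
  refine (abs_sum_le_sum_abs _ _).trans (le_trans (sum_le_sum (g := fun _ => (k : ℝ))
    fun i _ => ?_) (by simp))
  rw [abs_mul, abs_sg, one_mul]; exact_mod_cast hy i

lemma Pm_cosh (σ : ι → Bool) (lam : ℝ) (k : ℕ) :
    Pm k (fun y => Real.exp (lam * dot (fun i => sg (σ i)) y) +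
      Real.exp (-lam * dot (fun i => sg (σ i)) y)) 0 ≤
      2 * Real.exp (k * (lam ^ 2 * Fintype.card ι / 2)) := by
  have h1 := Pm_exp_le (fun i => lam * sg (σ i)) k 0
  have h2 := Pm_exp_le (fun i => -lam * sg (σ i)) k 0
  simp only [dot_mul, dot_zero, sum_sg_sq, mul_zero, zero_add, neg_sq] at h1 h2
  rw [Pm_add]; linarith

lemma one_le_cosh {lam B x : ℝ} (hlam : 0 ≤ lam) (hx : B < |x|) :
    1 ≤ Real.exp (-(lam * B)) * (Real.exp (lam * x) + Real.exp (-lam * x)) := by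
  rw [mul_add, ← Real.exp_add, ← Real.exp_add]
  rcases le_or_gt 0 x with ht | ht
  · rw [abs_of_nonneg ht] at hx
    have : 1 ≤ Real.exp (-(lam * B) + lam * x) := Real.one_le_exp (by nlinarith)
    linarith [Real.exp_pos (-(lam * B) + -lam * x)]
  · rw [abs_of_neg ht] at hx
    have : 1 ≤ Real.exp (-(lam * B) + -lam * x) := Real.one_le_exp (by nlinarith)
    linarith [Real.exp_pos (-(lam * B) + lam * x)]

lemma abs_rpow_le_add {p T x : ℝ} (hp0 : 0 ≤ p) (hp2 : p ≤ 2) (hT : 0 < T) :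
    |x| ^ p ≤ T ^ p + T ^ p / T ^ 2 * x ^ 2 := by
  have h0 : 0 < T ^ p := Real.rpow_pos_of_pos hT _
  rcases le_total |x| T with h | h
  · exact (Real.rpow_le_rpow (abs_nonneg _) h hp0).trans (le_add_of_nonneg_right (by positivity))
  · have hx : 0 < |x| := hT.trans_le h
    have e1 : |x| ^ p = |x| ^ (p - 2) * x ^ 2 := by
      rw [← sq_abs x, ← Real.rpow_two, ← Real.rpow_add hx]; congr 1; ring
    have e2 : |x| ^ (p - 2) ≤ T ^ (p - 2) := Real.rpow_le_rpow_of_nonpos hT h (by linarith)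
    rw [Real.rpow_sub hT, Real.rpow_two] at e2
    rw [e1]
    nlinarith [sq_nonneg x]

lemma add_rpow_le {p x y : ℝ} (hp0 : 0 ≤ p) (hp2 : p ≤ 2) (hx : 0 ≤ x) (hy : 0 ≤ y) :
    (x + y) ^ p ≤ 4 * (x ^ p + y ^ p) := by
  have e2 : (2 : ℝ) ^ p ≤ 4 := by
    calc (2 : ℝ) ^ p ≤ 2 ^ (2 : ℝ) := Real.rpow_le_rpow_of_exponent_le (by norm_num) hp2
      _ = 4 := by norm_num
  have hxp := Real.rpow_nonneg hx p
  have hyp := Real.rpow_nonneg hy p
  rcases le_total x y with h | h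
  · have := Real.rpow_le_rpow (by positivity) (by linarith : x + y ≤ 2 * y) hp0
    rw [Real.mul_rpow (by norm_num) hy] at this
    nlinarith
  · have := Real.rpow_le_rpow (by positivity) (by linarith : x + y ≤ 2 * x) hp0
    rw [Real.mul_rpow (by norm_num) hx] at this
    nlinarith

lemma rpow_lower {p u : ℝ} (hp1 : 1 ≤ p) (hp2 : p ≤ 2) :
    (u ^ 2 - 2 * Real.exp (-5) * (Real.exp (2 * u) + Real.exp (-2 * u))) / 5 ≤ |u| ^ p := by
  have hE : 0 ≤ 2 * Real.exp (-5) * (Real.exp (2 * u) + Real.exp (-2 * u)) := by positivity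
  rcases le_total |u| 1 with h | h
  · have : u ^ 2 ≤ |u| ^ p := by
      rw [← sq_abs, ← Real.rpow_two]
      exact Real.rpow_le_rpow_of_exponent_ge' (abs_nonneg _) h (by linarith) hp2
    nlinarith [sq_nonneg u]
  · have h1 : |u| ≤ |u| ^ p := by
      conv_lhs => rw [← Real.rpow_one |u|]
      exact Real.rpow_le_rpow_of_exponent_le h hp1
    rcases le_total |u| 5 with h5 | h5
    · rw [← sq_abs u]; nlinarith
    · have h2 : u ^ 2 ≤ 2 * Real.exp |u| := by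
        have := Real.quadratic_le_exp_of_nonneg (abs_nonneg u)
        rw [← sq_abs u]; linarith [abs_nonneg u]
      have h3 : Real.exp |u| ≤ Real.exp (-5) * (Real.exp (2 * u) + Real.exp (-2 * u)) := by
        rw [mul_add, ← Real.exp_add, ← Real.exp_add]
        rcases le_total 0 u with hu | hu
        · rw [abs_of_nonneg hu] at h5 ⊢
          have : Real.exp u ≤ Real.exp (-5 + 2 * u) := Real.exp_le_exp.2 (by linarith)
          linarith [Real.exp_pos (-5 + -2 * u)]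
        · rw [abs_of_nonpos hu] at h5 ⊢
          have : Real.exp (-u) ≤ Real.exp (-5 + -2 * u) := Real.exp_le_exp.2 (by linarith)
          linarith [Real.exp_pos (-5 + 2 * u)]
      have : 0 ≤ |u| ^ p := by positivity
      nlinarith

lemma signal {p T : ℝ} (hp1 : 1 ≤ p) (hp2 : p ≤ 2) (σ : ι → Bool) (k : ℕ) (hT : 0 < T)
    (hT2 : T ^ 2 = k * Fintype.card ι) :
    T ^ p / 10 ≤ Pm k (fun y => |dot (fun i => sg (σ i)) y| ^ p) 0 := by
  have hTp : 0 < T ^ p := Real.rpow_pos_of_pos hT _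
  have h1 : ∀ y, T ^ p / 5 * ((1 / T ^ 2) * (dot (fun i => sg (σ i)) y - 0) ^ 2 -
      2 * Real.exp (-5) * (Real.exp (2 / T * dot (fun i => sg (σ i)) y) +
        Real.exp (-(2 / T) * dot (fun i => sg (σ i)) y))) ≤ |dot (fun i => sg (σ i)) y| ^ p := by
    intro y
    set x := dot (fun i => sg (σ i)) y
    have := rpow_lower (u := x / T) hp1 hp2
    rw [abs_div, abs_of_pos hT, Real.div_rpow (abs_nonneg _) hT.le, le_div_iff₀ hTp] at this
    have e1 : 2 * (x / T) = 2 / T * x := by ring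
    have e2 : -2 * (x / T) = -(2 / T) * x := by ring
    have e3 : (x / T) ^ 2 = 1 / T ^ 2 * (x - 0) ^ 2 := by ring
    rw [e1, e2, e3] at this
    linarith
  refine le_trans ?_ (Pm_mono k 0 h1)
  rw [Pm_mul, Pm_sub, Pm_mul, Pm_mul, Pm_dot_sq, dot_zero]
  have h2 := Pm_cosh σ (2 / T) k
  have e4 : (k : ℝ) * ((2 / T) ^ 2 * Fintype.card ι / 2) = 2 := by
    field_simp; linarith
  have e5 : 1 / T ^ 2 * ((0 - 0) ^ 2 + k * ∑ i, sg (σ i) ^ 2) = 1 := by
    simp only [sg_sq, sum_const, card_univ, nsmul_eq_mul, mul_one]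
    field_simp; linarith
  rw [e4] at h2
  rw [e5]
  have h3 : Real.exp (-5) * Real.exp 2 ≤ 1 / 8 := by
    rw [← Real.exp_add, show (-5 : ℝ) + 2 = -3 by norm_num, Real.exp_neg, one_div]
    refine inv_anti₀ (by norm_num) ?_
    have := Real.add_one_le_exp (1 : ℝ)
    have e : Real.exp 3 = Real.exp 1 ^ 3 := by rw [← Real.exp_nat_mul]; norm_num
    rw [e]
    calc (8 : ℝ) = 2 ^ 3 := by norm_num
      _ ≤ _ := pow_le_pow_left₀ (by norm_num) (by linarith) 3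
  have h4 := mul_le_mul_of_nonneg_left h2 (by positivity : 0 ≤ 2 * Real.exp (-5))
  nlinarith

lemma sum_sq_avg_feat {T : Type*} [Fintype T] [Nonempty T] {p C : ℝ} (hp0 : 0 < p) (hC1 : 1 ≤ C)
    (hC : ∀ (K : Finset ℤ) (a b : ℝ), 0 ≤ a → 0 ≤ b →
      ∑ k ∈ K, w2 k ^ (-p) * min (w2 k ^ 2 * a) b ≤ C * (a ^ (p / 2) * b ^ (1 - p / 2)))
    (K : Finset ℤ) (u v : T → Ω → ℝ) {c : ℝ} (h : ∀ t, ∑ ω, |u t ω - v t ω| ^ p ≤ c) :
    ∑ l, avg (fun t => ft p K l (u t) - ft p K l (v t)) ^ 2 ≤ 4 * C * c := by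
  refine (sum_le_sum fun l _ => sq_avg_le _).trans ?_
  rw [← avg_sum]
  refine avg_le fun t => le_trans (le_of_eq ?_) ((feat_up hp0 hC1 hC K (u t) (v t)).trans
    (mul_le_mul_of_nonneg_left (h t) (by positivity)))
  rw [EuclideanSpace.real_norm_sq_eq]; rfl

lemma displacement {p C D ν T : ℝ} (hp1 : 1 ≤ p) (hp2 : p ≤ 2) (hC1 : 1 ≤ C) (hD : 0 ≤ D)
    (hC : ∀ (K : Finset ℤ) (a b : ℝ), 0 ≤ a → 0 ≤ b →
      ∑ k ∈ K, w2 k ^ (-p) * min (w2 k ^ 2 * a) b ≤ C * (a ^ (p / 2) * b ^ (1 - p / 2)))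
    (K : Finset ℤ) (e : κ → E) (he : ∀ x : κ → ℝ, ‖∑ j, x j • e j‖ ^ p = ∑ j, |x j| ^ p)
    (hν : 0 ≤ ν) (hνp : ν ^ p = Fintype.card κ) (m : ℕ) [NeZero m] (σ : κ → ι → Bool)
    (F : E → Ω → ℝ) (hF : ∀ x x', ∑ ω, |F x ω - F x' ω| ^ p ≤ D ^ p * ‖x - x'‖ ^ p)
    (M : ℕ) (hT : 0 < T) (hT2 : T ^ 2 = M * Fintype.card ι) (hmT : 2 * (m : ℝ) ≤ T) (y : ι → ℤ) :
    ∑ l, (Pm M (ph p K e m (fun j i => sg (σ j i)) F l) y -
      ft p K l (F (JJ e (fun j i => sg (σ j i)) y))) ^ 2 ≤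
      48 * C * D ^ p * (Fintype.card κ * T ^ p) := by
  have hp0 : 0 < p := by linarith
  set a : κ → ι → ℝ := fun j i => sg (σ j i) with ha
  have hDp : 0 ≤ D ^ p := Real.rpow_nonneg hD _
  have hTp : 0 < T ^ p := Real.rpow_pos_of_pos hT _
  have h1 : ∀ l, (Pm M (ph p K e m a F l) y - ft p K l (F (JJ e a y))) ^ 2 ≤
      Pm M (fun z => (ph p K e m a F l z - ft p K l (F (JJ e a y))) ^ 2) y := fun l => by
    rw [← Pm_const M (ft p K l (F (JJ e a y))) y, ← Pm_sub]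
    simp only [Pm_const]
    exact Pm_sq_le _ _ _
  refine (sum_le_sum fun l _ => h1 l).trans ?_
  rw [← Pm_sum]
  have h2 : ∀ z, ∑ l, (ph p K e m a F l z - ft p K l (F (JJ e a y))) ^ 2 ≤
      16 * C * D ^ p * (∑ j, (T ^ p + T ^ p / T ^ 2 * (dot (a j) z - dot (a j) y) ^ 2) +
        Fintype.card κ * T ^ p) := by
    intro z
    have e1 : ∀ l, ph p K e m a F l z - ft p K l (F (JJ e a y)) =
        avg fun t : (κ → Fin m) × (κ → Fin m) =>
          ft p K l (F (JJ e a z + (bx e t.1 + bx e t.2))) - ft p K l (F (JJ e a y)) := fun l => by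
      rw [avg_sub, avg_const, ph, QQ_eq]
    simp only [e1]
    refine (sum_sq_avg_feat hp0 hC1 hC K _ _ (c := D ^ p * (4 * (∑ j, (T ^ p + T ^ p / T ^ 2 *
      (dot (a j) z - dot (a j) y) ^ 2) + Fintype.card κ * T ^ p))) fun t => ?_).trans
      (le_of_eq (by ring))
    refine (hF _ _).trans (mul_le_mul_of_nonneg_left ?_ hDp)
    have e2 : JJ e a z + (bx e t.1 + bx e t.2) - JJ e a y = JJ e a (z - y) + (bx e t.1 + bx e t.2) := by
      rw [JJ_sub]; abel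
    rw [e2]
    refine (Real.rpow_le_rpow (norm_nonneg _) (norm_add_le _ _) hp0.le).trans
      ((add_rpow_le hp0.le hp2 (norm_nonneg _) (norm_nonneg _)).trans ?_)
    refine mul_le_mul_of_nonneg_left (add_le_add ?_ ?_) (by norm_num)
    · rw [JJ, he]
      exact sum_le_sum fun j _ => by rw [dot_sub]; exact abs_rpow_le_add hp0.le hp2 hT
    · rw [← hνp, ← Real.mul_rpow hν hT.le]
      exact Real.rpow_le_rpow (norm_nonneg _) ((norm_bx_le hp0 e he hν hνp _ _).trans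
        (mul_le_mul_of_nonneg_left hmT hν)) hp0.le
  refine (Pm_mono M y h2).trans (le_of_eq ?_)
  rw [Pm_mul, Pm_add, Pm_const, Pm_sum]
  have e3 : ∀ j, Pm M (fun z => T ^ p + T ^ p / T ^ 2 * (dot (a j) z - dot (a j) y) ^ 2) y =
      2 * T ^ p := fun j => by
    rw [Pm_add, Pm_const, Pm_mul, Pm_dot_sq]
    simp only [ha, sg_sq, sum_const, card_univ, nsmul_eq_mul, mul_one, sub_self]
    rw [← hT2]; field_simp; ring
  simp only [e3, sum_const, card_univ, nsmul_eq_mul]; ring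

end H831Z.Un
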