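import Mathlib

/-! Embeddings of metric spaces into the sequence space `ℓ_p`. -/

namespace H831Z.UDefs

open scoped ENNReal

/-- `A` embeds isometrically into real `ℓ_p`. -/
def IsoEmb (p : ℝ≥0∞) [Fact (1 ≤ p)] (A : Type) [MetricSpace A] : Prop :=
  ∃ f : A → lp (fun _ : ℕ => ℝ) p, ∀ x y, ‖f x - f y‖ = dist x y

/-- `X` embeds into real `ℓ_p` with distortion at most `D`. -/
def DistEmb (p : ℝ≥0∞) [Fact (1 ≤ p)] (X : Type) [MetricSpace X] (D : ℝ) : Prop :=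
  ∃ (f : X → lp (fun _ : ℕ => ℝ) p) (s : ℝ), 0 < s ∧
    ∀ x y, s * dist x y ≤ ‖f x - f y‖ ∧ ‖f x - f y‖ ≤ s * D * dist x y

end H831Z.UDefs
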