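import Pool.Agent.H831Z.UAvg

/-! Dyadic trigonometric features. -/

namespace H831Z.Un

open Finset

/-- dyadic frequency -/
noncomputable def w2 (k : ℤ) : ℝ := (2 : ℝ) ^ k

lemma w2_pos (k : ℤ) : 0 < w2 k := by unfold w2; positivity

lemma summable_g {p : ℝ} (hp0 : 0 < p) (hp2 : p < 2) :
    Summable fun j : ℤ => w2 j ^ (-p) * min (w2 j ^ 2) 1 := by
  have hnn : ∀ j : ℤ, 0 ≤ w2 j ^ (-p) * min (w2 j ^ 2) 1 := fun j =>
    mul_nonneg (Real.rpow_nonneg (w2_pos j).le _) (le_min (sq_nonneg _) zero_le_one)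
  refine Summable.of_nat_of_neg ?_ ?_
  · have h1 : (2 : ℝ) ^ (-p) < 1 := Real.rpow_lt_one_of_one_lt_of_neg (by norm_num) (by linarith)
    refine Summable.of_nonneg_of_le (fun n => hnn _) (fun n => ?_)
      (summable_geometric_of_lt_one (by positivity) h1)
    have : w2 (n : ℤ) ^ (-p) = ((2 : ℝ) ^ (-p)) ^ n := by
      rw [w2, zpow_natCast, ← Real.rpow_natCast, ← Real.rpow_natCast, ← Real.rpow_mul (by norm_num),
        ← Real.rpow_mul (by norm_num), mul_comm]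
    rw [← this]
    exact mul_le_of_le_one_right (Real.rpow_nonneg (w2_pos _).le _) (min_le_right _ _)
  · have h1 : (2 : ℝ) ^ (-(2 - p)) < 1 :=
      Real.rpow_lt_one_of_one_lt_of_neg (by norm_num) (by linarith)
    refine Summable.of_nonneg_of_le (fun n => hnn _) (fun n => ?_)
      (summable_geometric_of_lt_one (by positivity) h1)
    have : w2 (-(n : ℤ)) ^ (-p) * w2 (-(n : ℤ)) ^ 2 = ((2 : ℝ) ^ (-(2 - p))) ^ n := by
      rw [← Real.rpow_natCast (w2 _) 2, ← Real.rpow_add (w2_pos _), w2, ← Real.rpow_intCast,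
        ← Real.rpow_natCast, ← Real.rpow_mul (by norm_num), ← Real.rpow_mul (by norm_num)]
      congr 1; push_cast; ring
    rw [← this]
    exact mul_le_mul_of_nonneg_left (min_le_left _ _) (Real.rpow_nonneg (w2_pos _).le _)

lemma geom_bound {p : ℝ} (hp0 : 0 < p) (hp2 : p < 2) : ∃ C : ℝ, 1 ≤ C ∧
    ∀ (K : Finset ℤ) (a b : ℝ), 0 ≤ a → 0 ≤ b →
      ∑ k ∈ K, w2 k ^ (-p) * min (w2 k ^ 2 * a) b ≤ C * (a ^ (p / 2) * b ^ (1 - p / 2)) := by
  set g : ℤ → ℝ := fun j => w2 j ^ (-p) * min (w2 j ^ 2) 1 with hg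
  have hnn : ∀ j : ℤ, 0 ≤ g j := fun j =>
    mul_nonneg (Real.rpow_nonneg (w2_pos j).le _) (le_min (sq_nonneg _) zero_le_one)
  have hs : Summable g := summable_g hp0 hp2
  have hG : 0 ≤ ∑' j, g j := tsum_nonneg hnn
  refine ⟨4 * ∑' j, g j + 1, by linarith, fun K a b ha hb => ?_⟩
  have hR : 0 ≤ a ^ (p / 2) * b ^ (1 - p / 2) := by positivity
  rcases ha.eq_or_lt with rfl | ha'
  · refine le_trans (le_of_eq (sum_eq_zero fun k _ => ?_)) (by positivity)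
    simp [min_eq_left hb]
  rcases hb.eq_or_lt with rfl | hb'
  · refine le_trans (le_of_eq (sum_eq_zero fun k _ => ?_)) (by positivity)
    rw [min_eq_right (by positivity), mul_zero]
  set t := √(b / a) with ht
  have ht0 : 0 < t := Real.sqrt_pos.2 (by positivity)
  obtain ⟨k0, h1, h2⟩ := exists_mem_Ico_zpow ht0 (by norm_num : (1 : ℝ) < 2)
  have hu : 0 < w2 k0 := w2_pos k0
  have h1' : w2 k0 ≤ t := h1
  have h2' : t / 2 ≤ w2 k0 := by
    rw [zpow_add_one₀ (by norm_num)] at h2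
    unfold w2; linarith
  have ht2 : t ^ 2 * a = b := by rw [ht, Real.sq_sqrt (by positivity)]; field_simp
  have hua : w2 k0 ^ 2 * a ≤ b := by
    rw [← ht2]; exact mul_le_mul_of_nonneg_right (pow_le_pow_left₀ hu.le h1' 2) ha
  have htp : b * t ^ (-p) = a ^ (p / 2) * b ^ (1 - p / 2) := by
    rw [ht, Real.sqrt_eq_rpow, ← Real.rpow_mul (by positivity), Real.div_rpow hb ha,
      Real.rpow_sub hb', Real.rpow_one]
    have e1 : (1 / 2 : ℝ) * -p = -(p / 2) := by ring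
    rw [e1, Real.rpow_neg hb, Real.rpow_neg ha]
    have := Real.rpow_pos_of_pos ha' (p / 2)
    have := Real.rpow_pos_of_pos hb' (p / 2)
    field_simp
  have hup : w2 k0 ^ (-p) ≤ 4 * t ^ (-p) := by
    have e1 : w2 k0 ^ (-p) ≤ (t / 2) ^ (-p) :=
      Real.rpow_le_rpow_of_nonpos (by positivity) h2' (by linarith)
    rw [Real.div_rpow ht0.le (by norm_num), Real.rpow_neg (by norm_num : (0 : ℝ) ≤ 2),
      div_inv_eq_mul] at e1
    have e2 : (2 : ℝ) ^ p ≤ 4 := by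
      calc (2 : ℝ) ^ p ≤ 2 ^ (2 : ℝ) := Real.rpow_le_rpow_of_exponent_le (by norm_num) hp2.le
        _ = 4 := by norm_num
    have := Real.rpow_pos_of_pos ht0 (-p)
    nlinarith
  have key : ∀ k ∈ K, w2 k ^ (-p) * min (w2 k ^ 2 * a) b ≤
      4 * (a ^ (p / 2) * b ^ (1 - p / 2)) * g (k - k0) := by
    intro k _
    have e1 : w2 k = w2 k0 * w2 (k - k0) := by
      unfold w2; rw [← zpow_add₀ (by norm_num)]; congr 1; ring
    have hv := w2_pos (k - k0)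
    have e2 : min (w2 k ^ 2 * a) b ≤ b * min (w2 (k - k0) ^ 2) 1 := by
      rw [mul_min_of_nonneg _ _ hb, mul_one]
      refine min_le_min_right _ ?_
      rw [e1, mul_pow]; nlinarith [sq_nonneg (w2 (k - k0))]
    have e3 : w2 k ^ (-p) ≤ 4 * t ^ (-p) * w2 (k - k0) ^ (-p) := by
      rw [e1, Real.mul_rpow hu.le hv.le]
      exact mul_le_mul_of_nonneg_right hup (Real.rpow_nonneg hv.le _)
    calc w2 k ^ (-p) * min (w2 k ^ 2 * a) b
        ≤ (4 * t ^ (-p) * w2 (k - k0) ^ (-p)) * (b * min (w2 (k - k0) ^ 2) 1) :=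
          mul_le_mul e3 e2 (le_min (by positivity) hb) (by positivity)
      _ = 4 * (b * t ^ (-p)) * g (k - k0) := by simp only [hg]; ring
      _ = _ := by rw [htp]
  refine (sum_le_sum key).trans ?_
  rw [← mul_sum]
  have h3 : ∑ k ∈ K, g (k - k0) ≤ ∑' j, g j := by
    rw [← sum_image (s := K) (g := fun k => k - k0) (f := g) (fun x _ y _ h => by simpa using h)]
    exact hs.sum_le_tsum _ fun j _ => hnn j
  nlinarith

/-- cosine or sine -/
noncomputable def tr (b : Bool) (t : ℝ) : ℝ := if b then Real.cos t else Real.sin t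

lemma abs_tr_le (b : Bool) (t : ℝ) : |tr b t| ≤ 1 := by
  cases b
  · simpa [tr] using Real.abs_sin_le_one t
  · simpa [tr] using Real.abs_cos_le_one t

lemma abs_tr_sub_le (b : Bool) (s t : ℝ) : |tr b s - tr b t| ≤ |s - t| := by
  cases b
  · simpa [tr] using Real.abs_sin_sub_sin_le s t
  · simpa [tr] using Real.abs_cos_sub_cos_le s t

lemma sum_tr (s t : ℝ) : ∑ b : Bool, (tr b s - tr b t) ^ 2 = 2 - 2 * Real.cos (s - t) := by
  simp only [Fintype.sum_bool, tr, if_true, Bool.false_eq_true, if_false, Real.cos_sub]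
  nlinarith [Real.sin_sq_add_cos_sq s, Real.sin_sq_add_cos_sq t]

variable {Ω : Type*} [Fintype Ω]

/-- amplitude of a feature -/
noncomputable def amp (p : ℝ) (k : ℤ) : ℝ := w2 k ^ (-p / 2)

lemma amp_pos (p : ℝ) (k : ℤ) : 0 < amp p k := Real.rpow_pos_of_pos (w2_pos k) _

lemma amp_sq (p : ℝ) (k : ℤ) : amp p k ^ 2 = w2 k ^ (-p) := by
  rw [amp, ← Real.rpow_natCast, ← Real.rpow_mul (w2_pos k).le]; congr 1; push_cast; ring

/-- one feature -/
noncomputable def ft (p : ℝ) (K : Finset ℤ) (l : Ω × K × Bool) (u : Ω → ℝ) : ℝ :=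
  amp p l.2.1 * tr l.2.2 (w2 l.2.1 * u l.1)

/-- the feature vector -/
noncomputable def feat (p : ℝ) (K : Finset ℤ) (u : Ω → ℝ) : EuclideanSpace ℝ (Ω × K × Bool) :=
  WithLp.toLp 2 fun l => ft p K l u

lemma feat_sq (p : ℝ) (K : Finset ℤ) (u v : Ω → ℝ) : ‖feat p K u - feat p K v‖ ^ 2 =
    ∑ ω, ∑ k ∈ K, w2 k ^ (-p) * (2 - 2 * Real.cos (w2 k * (u ω - v ω))) := by
  rw [EuclideanSpace.real_norm_sq_eq, Fintype.sum_prod_type]
  refine sum_congr rfl fun ω _ => ?_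
  rw [Fintype.sum_prod_type, ← sum_coe_sort K]
  refine sum_congr rfl fun k _ => ?_
  rw [mul_sub (w2 k), ← sum_tr, mul_sum]
  refine sum_congr rfl fun b _ => ?_
  simp only [feat, ft, PiLp.sub_apply]
  rw [← amp_sq]; ring

lemma feat_up {p C : ℝ} (hp0 : 0 < p) (hC1 : 1 ≤ C)
    (hC : ∀ (K : Finset ℤ) (a b : ℝ), 0 ≤ a → 0 ≤ b →
      ∑ k ∈ K, w2 k ^ (-p) * min (w2 k ^ 2 * a) b ≤ C * (a ^ (p / 2) * b ^ (1 - p / 2)))
    (K : Finset ℤ) (u v : Ω → ℝ) :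
    ‖feat p K u - feat p K v‖ ^ 2 ≤ 4 * C * ∑ ω, |u ω - v ω| ^ p := by
  rw [feat_sq, mul_sum]
  refine sum_le_sum fun ω _ => ?_
  have h1 := hC K ((u ω - v ω) ^ 2) 4 (sq_nonneg _) (by norm_num)
  have h2 : ((u ω - v ω) ^ 2) ^ (p / 2) = |u ω - v ω| ^ p := by
    rw [← sq_abs, ← Real.rpow_natCast, ← Real.rpow_mul (abs_nonneg _)]; congr 1; push_cast; ring
  have h3 : (4 : ℝ) ^ (1 - p / 2) ≤ 4 := by
    calc (4 : ℝ) ^ (1 - p / 2) ≤ 4 ^ (1 : ℝ) :=
          Real.rpow_le_rpow_of_exponent_le (by norm_num) (by linarith)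
      _ = 4 := by norm_num
  have h4 : 0 ≤ |u ω - v ω| ^ p := by positivity
  rw [h2] at h1
  refine le_trans (sum_le_sum fun k _ => ?_) (h1.trans ?_)
  · refine mul_le_mul_of_nonneg_left (le_min ?_ ?_) (Real.rpow_nonneg (w2_pos k).le _)
    · have := Real.one_sub_sq_div_two_le_cos (x := w2 k * (u ω - v ω))
      rw [← mul_pow]; linarith
    · linarith [Real.neg_one_le_cos (w2 k * (u ω - v ω))]
  · have : |u ω - v ω| ^ p * 4 ^ (1 - p / 2) ≤ |u ω - v ω| ^ p * 4 :=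
      mul_le_mul_of_nonneg_left h3 h4
    nlinarith

lemma feat_low {p : ℝ} (hp0 : 0 < p) (hp2 : p ≤ 2) (K : Finset ℤ) (u v : Ω → ℝ)
    (h : ∀ ω, u ω ≠ v ω → ∃ k ∈ K, 1 ≤ w2 k * |u ω - v ω| ∧ w2 k * |u ω - v ω| ≤ 2) :
    (∑ ω, |u ω - v ω| ^ p) / 10 ≤ ‖feat p K u - feat p K v‖ ^ 2 := by
  rw [feat_sq, sum_div]
  refine sum_le_sum fun ω _ => ?_
  have hnn : ∀ k ∈ K, 0 ≤ w2 k ^ (-p) * (2 - 2 * Real.cos (w2 k * (u ω - v ω))) := fun k _ =>
    mul_nonneg (Real.rpow_nonneg (w2_pos k).le _) (by linarith [Real.cos_le_one (w2 k * (u ω - v ω))])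
  by_cases huv : u ω = v ω
  · rw [huv, sub_self, abs_zero, Real.zero_rpow hp0.ne', zero_div]
    rw [huv, sub_self] at hnn
    exact sum_nonneg hnn
  obtain ⟨k, hk, h1, h2⟩ := h ω huv
  refine le_trans ?_ (single_le_sum hnn hk)
  have hw := w2_pos k
  set x := w2 k * (u ω - v ω) with hx
  have hax : |x| = w2 k * |u ω - v ω| := by rw [hx, abs_mul, abs_of_pos hw]
  have hpi := Real.pi_gt_three
  have hpi2 := Real.pi_lt_d2
  have hc := Real.cos_le_one_sub_mul_cos_sq (x := x) (by rw [hax]; linarith)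
  have hx2 : 1 ≤ x ^ 2 := by rw [← sq_abs, hax]; nlinarith
  have hpi3 : 1 / 5 ≤ 2 / Real.pi ^ 2 := by
    rw [div_le_div_iff₀ (by norm_num) (by positivity)]; nlinarith
  have h3 : 2 / 5 ≤ 2 - 2 * Real.cos x := by nlinarith
  have h4 : |u ω - v ω| ^ p ≤ 4 * w2 k ^ (-p) := by
    have e1 : |u ω - v ω| ≤ 2 * (w2 k)⁻¹ := by
      rw [← div_eq_mul_inv, le_div_iff₀ hw]; linarith
    have e2 := Real.rpow_le_rpow (abs_nonneg _) e1 hp0.le
    rw [Real.mul_rpow (by norm_num) (by positivity), Real.inv_rpow hw.le,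
      ← Real.rpow_neg hw.le] at e2
    have e3 : (2 : ℝ) ^ p ≤ 4 := by
      calc (2 : ℝ) ^ p ≤ 2 ^ (2 : ℝ) := Real.rpow_le_rpow_of_exponent_le (by norm_num) hp2
        _ = 4 := by norm_num
    exact e2.trans (mul_le_mul_of_nonneg_right e3 (Real.rpow_nonneg hw.le _))
  have := Real.rpow_pos_of_pos hw (-p)
  nlinarith

lemma exists_scale {x : ℝ} (hx : x ≠ 0) : ∃ k : ℤ, 1 ≤ w2 k * |x| ∧ w2 k * |x| ≤ 2 := by
  have h0 : 0 < |x| := abs_pos.2 hx
  obtain ⟨n, h1, h2⟩ := exists_mem_Ico_zpow h0 (by norm_num : (1 : ℝ) < 2)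
  have hn : (0 : ℝ) < 2 ^ n := by positivity
  refine ⟨-n, ?_, ?_⟩
  · rw [w2, zpow_neg, ← div_eq_inv_mul, le_div_iff₀ hn]; linarith
  · rw [zpow_add_one₀ (by norm_num)] at h2
    rw [w2, zpow_neg, ← div_eq_inv_mul, div_le_iff₀ hn]; linarith

end H831Z.Un
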