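import Pool.Agent.H831Z.UWalk

/-! Incoherent frames of sign vectors. -/

namespace H831Z.Un

open Finset

section Incoh

variable {ι κ : Type*} [Fintype ι] [Fintype κ]

/-- synthesis -/
def syn (a : κ → ι → ℝ) (c : κ → ℝ) (i : ι) : ℝ := ∑ j, c j * a j i

lemma syn_sq_le {a : κ → ι → ℝ} {Fr : ℝ} (hFr : 0 ≤ Fr)
    (ha : ∀ u : ι → ℝ, ∑ j, (∑ i, a j i * u i) ^ 2 ≤ Fr * ∑ i, u i ^ 2) (c : κ → ℝ) :
    ∑ i, syn a c i ^ 2 ≤ Fr * ∑ j, c j ^ 2 := by
  set X := ∑ i, syn a c i ^ 2 with hX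
  have hX0 : 0 ≤ X := sum_nonneg fun _ _ => sq_nonneg _
  have h1 : X = ∑ j, c j * ∑ i, a j i * syn a c i := by
    simp only [mul_sum]
    rw [sum_comm, hX]
    refine sum_congr rfl fun i _ => ?_
    rw [sq]; conv_lhs => rw [syn, sum_mul]
    exact sum_congr rfl fun j _ => by rw [syn]; ring
  have h2 := sum_mul_sq_le_sq_mul_sq univ c (fun j => ∑ i, a j i * syn a c i)
  rw [← h1] at h2
  have h3 := ha (syn a c)
  have hc : 0 ≤ ∑ j, c j ^ 2 := sum_nonneg fun _ _ => sq_nonneg _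
  have h4 : X ^ 2 ≤ (∑ j, c j ^ 2) * (Fr * X) := h2.trans (mul_le_mul_of_nonneg_left h3 hc)
  rcases hX0.eq_or_lt with h | h
  · rw [← h]; positivity
  · nlinarith

lemma abs_inner_le {x y : ι → ℝ} {A B : ℝ} (hA : 0 ≤ A) (hB : 0 ≤ B) (hx : ∑ i, x i ^ 2 ≤ A ^ 2)
    (hy : ∑ i, y i ^ 2 ≤ B ^ 2) : |∑ i, x i * y i| ≤ A * B := by
  refine abs_le_of_sq_le_sq' ?_ (mul_nonneg hA hB) |> fun h => abs_le.2 h
  refine (sum_mul_sq_le_sq_mul_sq univ x y).trans ?_
  rw [mul_pow]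
  exact mul_le_mul hx hy (sum_nonneg fun _ _ => sq_nonneg _) (sq_nonneg _)

lemma split_vec {p θ τ : ℝ} (hp1 : 1 ≤ p) (hp2 : p ≤ 2) (hθ : 0 < θ) (hτ : θ ^ (2 - p) ≤ τ ^ 2)
    (c : κ → ℝ) (hc : ∑ j, |c j| ^ p ≤ 1) :
    ∃ c' c'' : κ → ℝ, (∀ j, c j = c' j + c'' j) ∧ ∑ j, |c' j| ≤ 1 / θ ∧ ∑ j, c' j ^ 2 ≤ 1 ∧
      ∑ j, c j ^ 2 ≤ 1 ∧ ∑ j, c'' j ^ 2 ≤ τ ^ 2 := by
  have h1 : ∀ j, |c j| ≤ 1 := fun j => by
    have : |c j| ^ p ≤ 1 := (single_le_sum (f := fun j => |c j| ^ p)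
      (fun _ _ => by positivity) (mem_univ j)).trans hc
    by_contra h
    push Not at h
    have := Real.one_lt_rpow h (by linarith : 0 < p)
    linarith
  have h2 : ∀ j, c j ^ 2 ≤ |c j| ^ p := fun j => by
    rw [← sq_abs, ← Real.rpow_two]
    exact Real.rpow_le_rpow_of_exponent_ge' (abs_nonneg _) (h1 j) (by linarith) hp2
  have h3 : ∑ j, c j ^ 2 ≤ 1 := (sum_le_sum fun j _ => h2 j).trans hc
  refine ⟨fun j => if θ < |c j| then c j else 0, fun j => if θ < |c j| then 0 else c j,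
    fun j => by dsimp only; split_ifs <;> simp, ?_, ?_, h3, ?_⟩
  · refine le_trans (sum_le_sum (g := fun j => c j ^ 2 / θ) fun j _ => ?_) ?_
    · dsimp only
      split_ifs with h
      · rw [le_div_iff₀ hθ, ← sq_abs]; nlinarith [abs_nonneg (c j)]
      · simp only [abs_zero]; positivity
    · rw [← sum_div]; exact div_le_div_of_nonneg_right h3 hθ.le
  · refine le_trans (sum_le_sum fun j _ => ?_) h3
    dsimp only
    split_ifs
    · exact le_rfl
    · simp only [ne_eq, OfNat.ofNat_ne_zero, not_false_eq_true, zero_pow]; positivity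
  · refine le_trans (sum_le_sum (g := fun j => |c j| ^ p * θ ^ (2 - p)) fun j _ => ?_) ?_
    · dsimp only
      split_ifs with h
      · simp only [ne_eq, OfNat.ofNat_ne_zero, not_false_eq_true, zero_pow]; positivity
      · push Not at h
        have e : c j ^ 2 = |c j| ^ p * |c j| ^ (2 - p) := by
          rw [← Real.rpow_add' (abs_nonneg _) (by norm_num), ← sq_abs, ← Real.rpow_two]
          congr 1; ring
        rw [e]
        exact mul_le_mul_of_nonneg_left (Real.rpow_le_rpow (abs_nonneg _) h (by linarith))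
          (by positivity)
    · rw [← sum_mul]
      exact (mul_le_of_le_one_left (by positivity) hc).trans hτ

lemma incoh_one {a b : κ → ι → ℝ} {Fr μ p θ τ : ℝ} (hFr : 0 ≤ Fr) (hμ : 0 ≤ μ)
    (ha : ∀ u : ι → ℝ, ∑ j, (∑ i, a j i * u i) ^ 2 ≤ Fr * ∑ i, u i ^ 2)
    (hb : ∀ u : ι → ℝ, ∑ j, (∑ i, b j i * u i) ^ 2 ≤ Fr * ∑ i, u i ^ 2)
    (hab : ∀ j j', |∑ i, a j i * b j' i| ≤ μ)
    (hp1 : 1 ≤ p) (hp2 : p ≤ 2) (hθ : 0 < θ) (hτ0 : 0 ≤ τ) (hτ : θ ^ (2 - p) ≤ τ ^ 2)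
    (c d : κ → ℝ) (hc : ∑ j, |c j| ^ p ≤ 1) (hd : ∑ j, |d j| ^ p ≤ 1) :
    |∑ i, syn a c i * syn b d i| ≤ μ / θ ^ 2 + 2 * Fr * τ := by
  obtain ⟨c', c'', e1, c1, c2, -, c4⟩ := split_vec hp1 hp2 hθ hτ c hc
  obtain ⟨d', d'', e2, d1, -, d3, d4⟩ := split_vec hp1 hp2 hθ hτ d hd
  have hsa : ∀ i, syn a c i = syn a c' i + syn a c'' i := fun i => by
    simp only [syn, e1, add_mul, sum_add_distrib]
  have hsb : ∀ i, syn b d i = syn b d' i + syn b d'' i := fun i => by
    simp only [syn, e2, add_mul, sum_add_distrib]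
  have e3 : ∑ i, syn a c i * syn b d i = ∑ i, syn a c' i * syn b d' i +
      ∑ i, syn a c' i * syn b d'' i + ∑ i, syn a c'' i * syn b d i := by
    rw [← sum_add_distrib, ← sum_add_distrib]
    refine sum_congr rfl fun i _ => ?_
    rw [hsa i]; conv_lhs => rw [add_mul]; enter [1]; rw [hsb i]
    ring
  have hs := Real.sq_sqrt hFr
  have hs0 := Real.sqrt_nonneg Fr
  have t1 : |∑ i, syn a c' i * syn b d' i| ≤ μ / θ ^ 2 := by
    have e4 : ∑ i, syn a c' i * syn b d' i = ∑ j, ∑ j', c' j * d' j' * ∑ i, a j i * b j' i := by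
      simp only [syn, sum_mul_sum]
      rw [sum_comm]
      refine sum_congr rfl fun j _ => ?_
      rw [sum_comm]
      refine sum_congr rfl fun j' _ => ?_
      rw [mul_sum]
      exact sum_congr rfl fun i _ => by ring
    rw [e4]
    calc _ ≤ ∑ j, ∑ j', |c' j| * |d' j'| * μ := by
          refine (abs_sum_le_sum_abs _ _).trans (sum_le_sum fun j _ => ?_)
          refine (abs_sum_le_sum_abs _ _).trans (sum_le_sum fun j' _ => ?_)
          rw [abs_mul, abs_mul]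
          exact mul_le_mul_of_nonneg_left (hab j j') (by positivity)
      _ = (∑ j, |c' j|) * (∑ j, |d' j|) * μ := by rw [sum_mul_sum, sum_mul]; simp only [sum_mul]
      _ ≤ (1 / θ) * (1 / θ) * μ := mul_le_mul_of_nonneg_right
          (mul_le_mul c1 d1 (sum_nonneg fun _ _ => abs_nonneg _) (by positivity)) hμ
      _ = μ / θ ^ 2 := by field_simp
  have t2 : |∑ i, syn a c' i * syn b d'' i| ≤ √Fr * (√Fr * τ) := by
    refine abs_inner_le hs0 (by positivity) ?_ ?_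
    · refine (syn_sq_le hFr ha c').trans ?_
      rw [hs]; exact mul_le_of_le_one_right hFr c2
    · refine (syn_sq_le hFr hb d'').trans ?_
      rw [mul_pow, hs]; exact mul_le_mul_of_nonneg_left d4 hFr
  have t3 : |∑ i, syn a c'' i * syn b d i| ≤ (√Fr * τ) * √Fr := by
    refine abs_inner_le (by positivity) hs0 ?_ ?_
    · refine (syn_sq_le hFr ha c'').trans ?_
      rw [mul_pow, hs]; exact mul_le_mul_of_nonneg_left c4 hFr
    · refine (syn_sq_le hFr hb d).trans ?_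
      rw [hs]; exact mul_le_of_le_one_right hFr d3
  rw [e3]
  refine (abs_add_three _ _ _).trans ?_
  have : √Fr * (√Fr * τ) = Fr * τ := by rw [← mul_assoc, ← sq, hs]
  have : √Fr * τ * √Fr = Fr * τ := by rw [mul_right_comm, ← sq, hs]
  linarith

lemma normalize {p α : ℝ} (hp1 : 1 ≤ p) (hα : 0 ≤ α) (c : κ → ℝ) (hc : ∑ j, |c j| ^ p ≤ α ^ p) :
    ∃ c' : κ → ℝ, (∀ j, c j = α * c' j) ∧ ∑ j, |c' j| ^ p ≤ 1 := by
  rcases hα.eq_or_lt with rfl | h
  · refine ⟨0, fun j => ?_, by simp [Real.zero_rpow (by linarith : p ≠ 0)]⟩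
    rw [Real.zero_rpow (by linarith)] at hc
    have : |c j| ^ p ≤ 0 := (single_le_sum (f := fun j => |c j| ^ p)
      (fun _ _ => by positivity) (mem_univ j)).trans hc
    by_contra h
    have : 0 < |c j| ^ p := Real.rpow_pos_of_pos (abs_pos.2 (by simpa using h)) _
    linarith
  · refine ⟨fun j => c j / α, fun j => by field_simp, ?_⟩
    simp only [abs_div, abs_of_pos h, Real.div_rpow (abs_nonneg _) hα, ← sum_div]
    exact (div_le_one (by positivity)).2 hc

lemma incoh {a b : κ → ι → ℝ} {Fr μ p θ τ : ℝ} (hFr : 0 ≤ Fr) (hμ : 0 ≤ μ)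
    (ha : ∀ u : ι → ℝ, ∑ j, (∑ i, a j i * u i) ^ 2 ≤ Fr * ∑ i, u i ^ 2)
    (hb : ∀ u : ι → ℝ, ∑ j, (∑ i, b j i * u i) ^ 2 ≤ Fr * ∑ i, u i ^ 2)
    (hab : ∀ j j', |∑ i, a j i * b j' i| ≤ μ)
    (hp1 : 1 ≤ p) (hp2 : p ≤ 2) (hθ : 0 < θ) (hτ0 : 0 ≤ τ) (hτ : θ ^ (2 - p) ≤ τ ^ 2)
    (c d : κ → ℝ) (α β : ℝ) (hα : 0 ≤ α) (hβ : 0 ≤ β)
    (hc : ∑ j, |c j| ^ p ≤ α ^ p) (hd : ∑ j, |d j| ^ p ≤ β ^ p) :
    |∑ i, syn a c i * syn b d i| ≤ (μ / θ ^ 2 + 2 * Fr * τ) * (α * β) := by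
  obtain ⟨c', e1, c1⟩ := normalize hp1 hα c hc
  obtain ⟨d', e2, d1⟩ := normalize hp1 hβ d hd
  have h := incoh_one hFr hμ ha hb hab hp1 hp2 hθ hτ0 hτ c' d' c1 d1
  have e3 : ∑ i, syn a c i * syn b d i = (α * β) * ∑ i, syn a c' i * syn b d' i := by
    rw [mul_sum]
    refine sum_congr rfl fun i _ => ?_
    have f1 : syn a c i = α * syn a c' i := by simp only [syn, e1, mul_sum, mul_assoc]
    have f2 : syn b d i = β * syn b d' i := by simp only [syn, e2, mul_sum, mul_assoc]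
    rw [f1, f2]; ring
  rw [e3, abs_mul, abs_of_nonneg (mul_nonneg hα hβ), mul_comm]
  exact mul_le_mul_of_nonneg_right h (mul_nonneg hα hβ)

end Incoh

section Had

variable {q : ℕ}

/-- Sylvester-Hadamard matrix -/
noncomputable def had (i l : Fin q → Bool) : ℝ := ∏ x, sg (!(i x && l x))

lemma had_sq (i l : Fin q → Bool) : had i l ^ 2 = 1 := by
  simp only [had, ← prod_pow, sg_sq, prod_const_one]

lemma had_orth (l l' : Fin q → Bool) :
    ∑ i, had i l * had i l' = if l = l' then (2 : ℝ) ^ q else 0 := by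
  have h := Finset.prod_univ_sum (fun _ : Fin q => (univ : Finset Bool))
    (fun x b => sg (!(b && l x)) * sg (!(b && l' x)))
  rw [Fintype.piFinset_univ] at h
  simp only [had, ← prod_mul_distrib]
  rw [← h]
  split_ifs with hl
  · subst hl; simp [sg_mul_self]
  · obtain ⟨x, hx⟩ := Function.ne_iff.1 hl
    refine prod_eq_zero (mem_univ x) ?_
    cases h1 : l x <;> cases h2 : l' x <;> simp_all [sg]

lemma had_comm (i l : Fin q → Bool) : had i l = had l i := by
  simp only [had, Bool.and_comm]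

lemma had_frame (v : (Fin q → Bool) → ℝ) :
    ∑ i, (∑ l, had i l * v l) ^ 2 = 2 ^ q * ∑ l, v l ^ 2 := by
  simp only [sq, sum_mul_sum]
  rw [sum_comm, mul_sum]
  refine sum_congr rfl fun l _ => ?_
  rw [sum_comm]
  have : ∀ l', ∑ i, had i l * v l * (had i l' * v l') =
      (if l = l' then (2 : ℝ) ^ q else 0) * (v l * v l') := fun l' => by
    rw [← had_orth, sum_mul]; exact sum_congr rfl fun i _ => by ring
  simp only [this, ite_mul, zero_mul, sum_ite_eq, mem_univ, if_true]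

lemma exists_coherent (T : ℕ) {δ lam : ℝ} (hlam : 0 ≤ lam)
    (h : 2 * ((T : ℝ) * 2 ^ q * 2 ^ q) * Real.exp (lam ^ 2 * 2 ^ q / 2 - lam * δ) < 1) :
    ∀ t ≤ T, ∃ s : Fin t → (Fin q → Bool) → Bool, ∀ τ τ', τ ≠ τ' → ∀ i i',
      |∑ l, (had i l * sg (s τ l)) * (had i' l * sg (s τ' l))| ≤ δ := by
  intro t
  induction t with
  | zero => exact fun _ => ⟨Fin.elim0, fun τ => τ.elim0⟩
  | succ t ih =>
    intro ht
    obtain ⟨s, hs⟩ := ih (by omega)
    obtain ⟨ε, hε⟩ := exists_signs (ι := Fin q → Bool)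
      (univ : Finset (Fin t × (Fin q → Bool) × (Fin q → Bool)))
      (fun z l => had z.2.1 l * (had z.2.2 l * sg (s z.1 l))) (σ2 := 2 ^ q) (δ := δ) hlam
      (fun z _ => by simp [mul_pow, had_sq, sg_sq]) (by
        refine lt_of_le_of_lt ?_ h
        refine mul_le_mul_of_nonneg_right (mul_le_mul_of_nonneg_left ?_ (by norm_num))
          (Real.exp_pos _).le
        have : (t : ℝ) ≤ T := by exact_mod_cast (by omega : t ≤ T)
        simp only [card_univ, Fintype.card_prod, Fintype.card_fin, Fintype.card_fun,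
          Fintype.card_bool]
        push_cast
        rw [← mul_assoc]
        gcongr)
    have key : ∀ τ' i i', |∑ l, (had i l * sg (ε l)) * (had i' l * sg (s τ' l))| ≤ δ := by
      intro τ' i i'
      have := hε (τ', i, i') (mem_univ _)
      refine le_trans (le_of_eq ?_) this
      congr 1; exact sum_congr rfl fun l _ => by ring
    refine ⟨Fin.cons ε s, fun τ τ' hne i i' => ?_⟩
    cases τ using Fin.cases with
    | zero =>
      cases τ' using Fin.cases with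
      | zero => exact absurd rfl hne
      | succ τ' => simpa using key τ' i i'
    | succ τ =>
      cases τ' using Fin.cases with
      | zero =>
        have := key τ i' i
        simp only [Fin.cons_succ, Fin.cons_zero]
        refine le_trans (le_of_eq ?_) this
        congr 1; exact sum_congr rfl fun l _ => by ring
      | succ τ' => simpa using hs τ τ' (fun h => hne (by rw [h])) i i'

end Had

section Split

variable {ι κ : Type*} [Fintype ι] [Fintype κ] [DecidableEq κ]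

lemma exists_split (c : κ → Bool → ι → ℝ) (U : Finset (ι → ℤ)) {p B δ lam : ℝ} (hp : 0 ≤ p)
    (hlam : 0 ≤ lam) (hU : ∀ u ∈ U, ∀ j b, |dot (c j b) u| ≤ B)
    (h : 2 * (U.card : ℝ) * Real.exp (lam ^ 2 * (Fintype.card κ * (B ^ p) ^ 2) / 2 - lam * δ) < 1) :
    ∃ s : κ → Bool, ∀ u ∈ U,
      |∑ j, |dot (c j (s j)) u| ^ p - ∑ j, |dot (c j (!s j)) u| ^ p| ≤ δ := by
  obtain ⟨s, hs⟩ := exists_signs U
    (fun u j => |dot (c j true) u| ^ p - |dot (c j false) u| ^ p) hlam (fun u hu => by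
      refine le_trans (sum_le_sum (g := fun _ => (B ^ p) ^ 2) fun j _ => ?_) (by simp)
      have h1 := Real.rpow_le_rpow (abs_nonneg _) (hU u hu j true) hp
      have h2 := Real.rpow_le_rpow (abs_nonneg _) (hU u hu j false) hp
      have h3 : 0 ≤ |dot (c j true) u| ^ p := by positivity
      have h4 : 0 ≤ |dot (c j false) u| ^ p := by positivity
      exact sq_le_sq' (by linarith) (by linarith)) h
  refine ⟨s, fun u hu => le_trans (le_of_eq ?_) (hs u hu)⟩
  rw [← sum_sub_distrib]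
  congr 1
  refine sum_congr rfl fun j _ => ?_
  cases s j <;> simp [sg]

end Split

end H831Z.Un
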