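import Pool.Agent.H831Z.UIneq
import Pool.Agent.H831Z.UDefs

/-! Frames, truncation and gluing. -/

namespace H831Z.Un

open Finset
open scoped ENNReal

lemma had_eq (q : ℕ) (i l : Fin q → Bool) : had i l = sg (decide (had i l = 1)) := by
  have h := had_sq i l
  by_cases h1 : had i l = 1
  · simp [h1, sg]
  · have : (had i l - 1) * (had i l + 1) = 0 := by linarith
    rcases mul_eq_zero.1 this with h2 | h2
    · exact absurd (by linarith) h1
    · simp only [h1, decide_false, sg, Bool.false_eq_true, if_false]; linarith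

theorem exists_frames (q T0 k : ℕ) {p μ lam B δ lam' : ℝ} (hp : 0 ≤ p) (hμ : 0 ≤ μ)
    (hlam : 0 ≤ lam) (hlam' : 0 ≤ lam')
    (h1 : 2 * (((T0 * 2 : ℕ) : ℝ) * 2 ^ q * 2 ^ q) * Real.exp (lam ^ 2 * 2 ^ q / 2 - lam * μ) < 1)
    (h2 : 2 * ((4 * k + 1 : ℝ) ^ (2 ^ q)) * Real.exp (lam' ^ 2 *
      (Fintype.card (Fin T0 × (Fin q → Bool)) * ((2 * B) ^ p) ^ 2) / 2 - lam' * δ) < 1) :
    ∃ σ σ' : Fin T0 × (Fin q → Bool) → (Fin q → Bool) → Bool,
      (∀ u : (Fin q → Bool) → ℝ, ∑ j, (∑ i, sg (σ j i) * u i) ^ 2 ≤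
        (2 * Fintype.card (Fin T0 × (Fin q → Bool))) * ∑ i, u i ^ 2) ∧
      (∀ u : (Fin q → Bool) → ℝ, ∑ j, (∑ i, sg (σ' j i) * u i) ^ 2 ≤
        (2 * Fintype.card (Fin T0 × (Fin q → Bool))) * ∑ i, u i ^ 2) ∧
      (∀ j j', |∑ i, sg (σ j i) * sg (σ' j' i)| ≤ μ) ∧
      ∀ y y', good (fun j i => sg (σ j i)) (fun j i => sg (σ' j i)) k B y →
        good (fun j i => sg (σ j i)) (fun j i => sg (σ' j i)) k B y' →
        |∑ j, |dot (fun i => sg (σ j i)) (y - y')| ^ p -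
          ∑ j, |dot (fun i => sg (σ' j i)) (y - y')| ^ p| ≤ δ := by
  classical
  obtain ⟨s, hs⟩ := exists_coherent (q := q) (T0 * 2) hlam h1 (T0 * 2) le_rfl
  let ix : Fin T0 × Bool ≃ Fin (T0 * 2) :=
    (Equiv.prodCongr (Equiv.refl _) finTwoEquiv.symm).trans finProdFinEquiv
  let cb : Fin T0 × (Fin q → Bool) → Bool → (Fin q → Bool) → Bool :=
    fun j b l => decide (had j.2 l = 1) == s (ix (j.1, b)) l
  have hcb : ∀ j b l, sg (cb j b l) = had j.2 l * sg (s (ix (j.1, b)) l) := fun j b l => by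
    rw [← sg_mul, ← had_eq]
  let U : Finset ((Fin q → Bool) → ℤ) :=
    (Fintype.piFinset fun _ => Icc (-(2 * k : ℤ)) (2 * k)).filter
      fun u => ∀ j b, |dot (fun l => sg (cb j b l)) u| ≤ 2 * B
  have hcard : (U.card : ℝ) ≤ (4 * k + 1 : ℝ) ^ (2 ^ q) := by
    have : U.card ≤ (4 * k + 1) ^ (2 ^ q) := by
      refine (card_filter_le _ _).trans (le_of_eq ?_)
      rw [Fintype.card_piFinset]
      simp only [Int.card_Icc, prod_const, card_univ, Fintype.card_fun, Fintype.card_bool,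
        Fintype.card_fin]
      congr 1; omega
    exact_mod_cast this
  obtain ⟨t, ht⟩ := exists_split (fun j b l => sg (cb j b l)) U (B := 2 * B) (δ := δ) hp hlam'
    (fun u hu => (mem_filter.1 hu).2) (lt_of_le_of_lt (by gcongr) h2)
  have hfr : ∀ (t : Fin T0 × (Fin q → Bool) → Bool) (u : (Fin q → Bool) → ℝ),
      ∑ j, (∑ i, sg (cb j (t j) i) * u i) ^ 2 ≤
        (2 * Fintype.card (Fin T0 × (Fin q → Bool))) * ∑ i, u i ^ 2 := by
    intro t u
    have e1 : ∀ b, ∑ j, (∑ i, sg (cb j b i) * u i) ^ 2 =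
        Fintype.card (Fin T0 × (Fin q → Bool)) * ∑ i, u i ^ 2 := fun b => by
      rw [Fintype.sum_prod_type]
      have : ∀ τ, ∑ i' : Fin q → Bool, (∑ i, sg (cb (τ, i') b i) * u i) ^ 2 = 2 ^ q * ∑ i, u i ^ 2 :=
        fun τ => by
          simp only [hcb, mul_assoc]
          rw [had_frame]; simp only [mul_pow, sg_sq, one_mul]
      simp [this, mul_assoc]
    calc _ ≤ ∑ j, ((∑ i, sg (cb j true i) * u i) ^ 2 + (∑ i, sg (cb j false i) * u i) ^ 2) :=
          sum_le_sum fun j _ => by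
            cases t j
            · exact le_add_of_nonneg_left (sq_nonneg _)
            · exact le_add_of_nonneg_right (sq_nonneg _)
      _ = _ := by rw [sum_add_distrib, e1, e1]; ring
  refine ⟨fun j => cb j (t j), fun j => cb j (!t j), hfr t, hfr fun j => !t j, fun j j' => ?_,
    fun y y' hy hy' => ht (y - y') (mem_filter.2 ⟨?_, fun j b => ?_⟩)⟩
  · simp only [hcb]
    by_cases hij : ix (j.1, t j) = ix (j'.1, !t j')
    · have hne : j.2 ≠ j'.2 := by
        intro h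
        have h' := ix.injective hij
        have : j = j' := Prod.ext (Prod.mk.inj h').1 h
        subst this
        simpa using (Prod.mk.inj h').2
      rw [hij]
      have : ∑ i, had j.2 i * sg (s (ix (j'.1, !t j')) i) * (had j'.2 i * sg (s (ix (j'.1, !t j')) i)) =
          ∑ i, had i j.2 * had i j'.2 := sum_congr rfl fun i _ => by
        rw [had_comm j.2, had_comm j'.2]
        linear_combination (had i j.2 * had i j'.2) * sg_mul_self (s (ix (j'.1, !t j')) i)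
      rw [this, had_orth, if_neg hne, abs_zero]; exact hμ
    · exact hs _ _ hij _ _
  · refine Fintype.mem_piFinset.2 fun i => mem_Icc.2 ?_
    have := abs_le.1 (hy.1 i)
    have := abs_le.1 (hy'.1 i)
    simp only [Pi.sub_apply]; omega
  · rw [dot_sub]
    refine (abs_sub _ _).trans ?_
    by_cases hb : b = t j
    · subst hb; linarith [hy.2.1 j, hy'.2.1 j]
    · have : b = !t j := by cases b <;> cases h : t j <;> simp_all
      subst this; linarith [hy.2.2 j, hy'.2.2 j]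

lemma exists_trunc {P : ℝ≥0∞} [Fact (1 ≤ P)] (hp0 : 0 < P.toReal) (hp2 : P.toReal ≤ 2) {Y : Type*}
    (S : Finset Y) (u v : Y → lp (fun _ : ℕ => ℝ) P) :
    ∃ (Ω : Finset ℕ) (K : Finset ℤ), ∀ y ∈ S, ‖u y - v y‖ ^ P.toReal / 20 ≤
      ‖feat P.toReal K (fun ω : Ω => u y ω) - feat P.toReal K (fun ω : Ω => v y ω)‖ ^ 2 := by
  classical
  have h1 : ∀ y ∈ S, ∀ᶠ Ω : Finset ℕ in Filter.atTop,
      ‖u y - v y‖ ^ P.toReal / 2 ≤ ∑ ω ∈ Ω, |u y ω - v y ω| ^ P.toReal := by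
    intro y _
    have hs := lp.hasSum_norm hp0 (u y - v y)
    simp only [lp.coeFn_sub, Pi.sub_apply, Real.norm_eq_abs] at hs
    rcases (Real.rpow_nonneg (norm_nonneg (u y - v y)) P.toReal).eq_or_lt with h0 | h0
    · exact Filter.Eventually.of_forall fun Ω => by
        rw [← h0, zero_div]; exact sum_nonneg fun _ _ => by positivity
    · exact (Filter.Tendsto.eventually_const_lt (by linarith) hs).mono fun _ h => h.le
  obtain ⟨Ω, hΩ⟩ := ((Filter.eventually_all_finset S).2 h1).exists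
  have h2 : ∀ x : ℝ, ∃ k : ℤ, x ≠ 0 → 1 ≤ w2 k * |x| ∧ w2 k * |x| ≤ 2 := fun x => by
    by_cases hx : x = 0
    · exact ⟨0, fun h => absurd hx h⟩
    · obtain ⟨k, hk⟩ := exists_scale hx; exact ⟨k, fun _ => hk⟩
  choose kf hkf using h2
  refine ⟨Ω, (S ×ˢ Ω).image fun z => kf (u z.1 z.2 - v z.1 z.2), fun y hy => ?_⟩
  refine le_trans ?_ (feat_low hp0 hp2 _ _ _ fun ω hω =>
    ⟨kf (u y ω - v y ω), mem_image.2 ⟨(y, ω), mem_product.2 ⟨hy, ω.2⟩, rfl⟩,
      hkf _ (sub_ne_zero.2 hω)⟩)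
  rw [sum_coe_sort Ω (fun ω => |u y ω - v y ω| ^ P.toReal)]
  linarith [hΩ y hy]

lemma coord_le {P : ℝ≥0∞} [Fact (1 ≤ P)] (hp0 : 0 < P.toReal) (Ω : Finset ℕ)
    (u v : lp (fun _ : ℕ => ℝ) P) {D t : ℝ} (hD : 0 ≤ D) (ht : 0 ≤ t) (h : ‖u - v‖ ≤ D * t) :
    ∑ ω : Ω, |u ω - v ω| ^ P.toReal ≤ D ^ P.toReal * t ^ P.toReal := by
  rw [sum_coe_sort Ω (fun ω => |u ω - v ω| ^ P.toReal), ← Real.mul_rpow hD ht]
  have := lp.sum_rpow_le_norm_rpow hp0 (u - v) Ω
  simp only [lp.coeFn_sub, Pi.sub_apply, Real.norm_eq_abs] at this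
  exact this.trans (Real.rpow_le_rpow (norm_nonneg _) h hp0.le)

lemma exists_basis (P : ℝ≥0∞) [Fact (1 ≤ P)] (hp0 : 0 < P.toReal) (κ : Type) [Fintype κ] :
    ∃ e : κ → lp (fun _ : ℕ => ℝ) P,
      ∀ x : κ → ℝ, ‖∑ j, x j • e j‖ ^ P.toReal = ∑ j, |x j| ^ P.toReal := by
  classical
  obtain ⟨g, hg⟩ := Countable.exists_injective_nat κ
  refine ⟨fun j => lp.single P (g j) (1 : ℝ), fun x => ?_⟩
  have h := lp.norm_sum_single (E := fun _ : ℕ => ℝ) hp0 (Function.extend g x 0) (univ.image g)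
  rw [sum_image (fun a _ b _ h => hg h), sum_image (fun a _ b _ h => hg h)] at h
  simp only [hg.extend_apply, Real.norm_eq_abs] at h
  rw [← h]
  congr 2
  refine sum_congr rfl fun j _ => ?_
  rw [← lp.single_smul]; simp

lemma abs_sub_le_of_rpow {p x y t : ℝ} (hp : 1 ≤ p) (hx : 0 ≤ x) (hy : 0 ≤ y) (ht : 0 ≤ t)
    (h : |x ^ p - y ^ p| ≤ t ^ p) : |x - y| ≤ t := by
  have key : ∀ x y : ℝ, 0 ≤ x → 0 ≤ y → x ^ p - y ^ p ≤ t ^ p → x - y ≤ t := by
    intro x y hx hy h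
    have := Real.add_rpow_le_rpow_add hy ht hp
    have h2 : x ≤ y + t := by
      rw [← Real.rpow_le_rpow_iff hx (by positivity) (by linarith : 0 < p)]; linarith
    linarith
  have := abs_le.1 h
  exact abs_le.2 ⟨by linarith [key y x hy hx (by linarith)], key x y hx hy this.2⟩

end H831Z.Un
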