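import Pool.Agent.H831Z.UCore

/-! Assembling the main inequality. -/

namespace H831Z.Un

open Finset

variable {E : Type*} [NormedAddCommGroup E] [NormedSpace ℝ E]
variable {ι κ Ω : Type*} [Fintype ι] [DecidableEq ι] [Fintype κ] [DecidableEq κ] [Fintype Ω]

/-- flat lattice points -/
def good (a b : κ → ι → ℝ) (k : ℕ) (B : ℝ) (y : ι → ℤ) : Prop :=
  (∀ i, |y i| ≤ k) ∧ (∀ j, |dot (a j) y| ≤ B) ∧ ∀ j, |dot (b j) y| ≤ B

omit [DecidableEq ι] [Fintype κ] [DecidableEq κ] in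
lemma good_zero (a b : κ → ι → ℝ) (k : ℕ) {B : ℝ} (hB : 0 ≤ B) : good a b k B 0 :=
  ⟨fun i => by simp, fun j => by simpa [dot_zero] using hB, fun j => by simpa [dot_zero] using hB⟩

lemma cross_bound {p C D ν r B lam : ℝ} (hp0 : 0 < p) (hC1 : 1 ≤ C) (hD : 0 ≤ D)
    (hC : ∀ (K : Finset ℤ) (a b : ℝ), 0 ≤ a → 0 ≤ b →
      ∑ k ∈ K, w2 k ^ (-p) * min (w2 k ^ 2 * a) b ≤ C * (a ^ (p / 2) * b ^ (1 - p / 2)))
    (K : Finset ℤ) (e : κ → E) (he : ∀ x : κ → ℝ, ‖∑ j, x j • e j‖ ^ p = ∑ j, |x j| ^ p)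
    (hν : 0 ≤ ν) (hνp : ν ^ p = Fintype.card κ) (m : ℕ) [NeZero m] (σ σ' : κ → ι → Bool)
    (F F' : E → Ω → ℝ) (k : ℕ) (hB : 0 ≤ B) (hr : 0 ≤ r) (hlam : 0 ≤ lam)
    (hX : ∀ y, good (fun j i => sg (σ j i)) (fun j i => sg (σ' j i)) k B y → ∀ x x',
      ∑ ω, |F x ω - F' x' ω| ^ p ≤ D ^ p * (‖x - JJ e (fun j i => sg (σ j i)) y‖ +
        ‖x' - JJ e (fun j i => sg (σ' j i)) y‖ + r) ^ p) :
    Pm k (fun y => ∑ l, (ph p K e m (fun j i => sg (σ j i)) F l y -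
      ph p K e m (fun j i => sg (σ' j i)) F' l y) ^ 2) 0 ≤
      4 * C * D ^ p * ((r + 4 * ν * m) ^ p + 4 * Fintype.card κ *
        Real.exp (k * (lam ^ 2 * Fintype.card ι / 2) - lam * B) *
          (r + 4 * ν * m + 2 * ν * (Fintype.card ι * k)) ^ p) := by
  set a : κ → ι → ℝ := fun j i => sg (σ j i) with ha
  set b : κ → ι → ℝ := fun j i => sg (σ' j i) with hb
  have hDp : 0 ≤ D ^ p := Real.rpow_nonneg hD _
  set bad : (ι → ℤ) → ℝ := fun y => ∑ j, (Real.exp (-(lam * B)) *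
    (Real.exp (lam * dot (a j) y) + Real.exp (-lam * dot (a j) y)) + Real.exp (-(lam * B)) *
    (Real.exp (lam * dot (b j) y) + Real.exp (-lam * dot (b j) y))) with hbad
  set X1 := (r + 4 * ν * m) ^ p with hX1
  set X2 := (r + 4 * ν * m + 2 * ν * (Fintype.card ι * k)) ^ p with hX2
  have X10 : 0 ≤ X1 := by positivity
  have X20 : 0 ≤ X2 := by positivity
  have bad0 : ∀ y, 0 ≤ bad y := fun y => sum_nonneg fun _ _ => by positivity
  have h1 : ∀ y : ι → ℤ, (∀ i, |y i - (0 : ι → ℤ) i| ≤ k) →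
      ∑ l, (ph p K e m a F l y - ph p K e m b F' l y) ^ 2 ≤ 4 * C * D ^ p * (X1 + X2 * bad y) := by
    intro y hy
    simp only [Pi.zero_apply, sub_zero] at hy
    have e1 : ∀ l, ph p K e m a F l y - ph p K e m b F' l y =
        avg fun t : (κ → Fin m) × (κ → Fin m) =>
          ft p K l (F (JJ e a y + (bx e t.1 + bx e t.2))) -
            ft p K l (F' (JJ e b y + (bx e t.1 + bx e t.2))) := fun l => by
      rw [avg_sub, ph, ph, QQ_eq, QQ_eq]
    simp only [e1]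
    refine (sum_sq_avg_feat hp0 hC1 hC K _ _ (c := D ^ p * (X1 + X2 * bad y)) fun t => ?_).trans
      (le_of_eq (by ring))
    have hV := norm_bx_le hp0 e he hν hνp t.1 t.2
    by_cases hg : good a b k B y
    · refine (hX y hg _ _).trans (mul_le_mul_of_nonneg_left ?_ hDp)
      simp only [add_sub_cancel_left]
      refine (Real.rpow_le_rpow (by positivity) (by linarith) hp0.le).trans
        (le_add_of_nonneg_right (mul_nonneg X20 (bad0 y)))
    · refine (hX 0 (good_zero a b k hB) _ _).trans (mul_le_mul_of_nonneg_left ?_ hDp)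
      simp only [JJ_zero, sub_zero]
      have hb1 : 1 ≤ bad y := by
        have : ∃ j, B < |dot (a j) y| ∨ B < |dot (b j) y| := by
          by_contra hcon
          push Not at hcon
          exact hg ⟨hy, fun j => (hcon j).1, fun j => (hcon j).2⟩
        obtain ⟨j, hj⟩ := this
        refine le_trans ?_ (single_le_sum (f := fun j => Real.exp (-(lam * B)) *
          (Real.exp (lam * dot (a j) y) + Real.exp (-lam * dot (a j) y)) + Real.exp (-(lam * B)) *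
          (Real.exp (lam * dot (b j) y) + Real.exp (-lam * dot (b j) y)))
          (fun _ _ => by positivity) (mem_univ j))
        rcases hj with hj | hj
        · exact (one_le_cosh hlam hj).trans (le_add_of_nonneg_right (by positivity))
        · exact (one_le_cosh hlam hj).trans (le_add_of_nonneg_left (by positivity))
      have n1 : ‖JJ e a y‖ ≤ ν * (Fintype.card ι * k) :=
        norm_le_coords hp0 e he hν hνp (by positivity) _ fun j => abs_dot_le (σ j) y hy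
      have n2 : ‖JJ e b y‖ ≤ ν * (Fintype.card ι * k) :=
        norm_le_coords hp0 e he hν hνp (by positivity) _ fun j => abs_dot_le (σ' j) y hy
      have n3 := norm_add_le (JJ e a y) (bx e t.1 + bx e t.2)
      have n4 := norm_add_le (JJ e b y) (bx e t.1 + bx e t.2)
      have : (‖JJ e a y + (bx e t.1 + bx e t.2)‖ + ‖JJ e b y + (bx e t.1 + bx e t.2)‖ + r) ^ p ≤ X2 :=
        Real.rpow_le_rpow (by positivity) (by linarith) hp0.le
      nlinarith
  refine (Pm_mono_box k 0 h1).trans ?_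
  rw [Pm_mul, Pm_add, Pm_const, Pm_mul]
  refine mul_le_mul_of_nonneg_left (add_le_add le_rfl ?_) (by positivity)
  rw [mul_comm]
  refine mul_le_mul_of_nonneg_right ?_ X20
  rw [hbad, Pm_sum]
  refine le_trans (sum_le_sum (g := fun _ => 4 * Real.exp (k * (lam ^ 2 * Fintype.card ι / 2) -
    lam * B)) fun j _ => ?_) (le_of_eq (by simp only [sum_const, card_univ, nsmul_eq_mul]; ring))
  rw [Pm_add, Pm_mul, Pm_mul, sub_eq_add_neg, Real.exp_add]
  have c1 := Pm_cosh (σ j) lam k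
  have c2 := Pm_cosh (σ' j) lam k
  have := Real.exp_pos (-(lam * B))
  nlinarith

theorem core {p C D ν r B lam η T T' : ℝ} (hp1 : 1 ≤ p) (hp2 : p ≤ 2) (hC1 : 1 ≤ C) (hD : 0 ≤ D)
    (hC : ∀ (K : Finset ℤ) (a b : ℝ), 0 ≤ a → 0 ≤ b →
      ∑ k ∈ K, w2 k ^ (-p) * min (w2 k ^ 2 * a) b ≤ C * (a ^ (p / 2) * b ^ (1 - p / 2)))
    (K : Finset ℤ) (e : κ → E) (he : ∀ x : κ → ℝ, ‖∑ j, x j • e j‖ ^ p = ∑ j, |x j| ^ p)
    (hν : 0 ≤ ν) (hνp : ν ^ p = Fintype.card κ) (m : ℕ) [NeZero m] (σ σ' : κ → ι → Bool)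
    (hη0 : 0 ≤ η)
    (hη : ∀ (c d : κ → ℝ) (α β : ℝ), 0 ≤ α → 0 ≤ β → ∑ j, |c j| ^ p ≤ α ^ p →
      ∑ j, |d j| ^ p ≤ β ^ p →
      |∑ i, syn (fun j i => sg (σ j i)) c i * syn (fun j i => sg (σ' j i)) d i| ≤ η * (α * β))
    (F F' : E → Ω → ℝ)
    (hF : ∀ x x', ∑ ω, |F x ω - F x' ω| ^ p ≤ D ^ p * ‖x - x'‖ ^ p)
    (hF' : ∀ x x', ∑ ω, |F' x ω - F' x' ω| ^ p ≤ D ^ p * ‖x - x'‖ ^ p)
    (M M' : ℕ) (hM : 0 < M) (hB : 0 ≤ B) (hr : 0 ≤ r) (hlam : 0 ≤ lam)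
    (hX : ∀ y, good (fun j i => sg (σ j i)) (fun j i => sg (σ' j i)) (M' + M) B y → ∀ x x',
      ∑ ω, |F x ω - F' x' ω| ^ p ≤ D ^ p * (‖x - JJ e (fun j i => sg (σ j i)) y‖ +
        ‖x' - JJ e (fun j i => sg (σ' j i)) y‖ + r) ^ p)
    (hT : 0 < T) (hT2 : T ^ 2 = M * Fintype.card ι) (hmT : 2 * (m : ℝ) ≤ T)
    (hT' : 0 < T') (hT2' : T' ^ 2 = M' * Fintype.card ι)
    (hlow : ∀ y : ι → ℤ, (∀ i, |y i| ≤ M') →
      ‖JJ e (fun j i => sg (σ j i)) y - JJ e (fun j i => sg (σ j i)) (-y)‖ ^ p / 20 ≤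
      ‖feat p K (F (JJ e (fun j i => sg (σ j i)) y)) -
        feat p K (F (JJ e (fun j i => sg (σ j i)) (-y)))‖ ^ 2) :
    Fintype.card κ * T' ^ p / 200 ≤ 288 * C * D ^ p * (Fintype.card κ * T ^ p) +
      12 * M' * ((22 * (16 * C * D ^ p * ((Fintype.card κ : ℝ) * Fintype.card ι) ^ 4 *
          (m : ℝ) ^ p / (m : ℝ) ^ 4) +
        8 * C * (η ^ (p / 2) * (2 / M) ^ (1 - p / 2)) * (Fintype.card κ * D ^ p)) +
        6 / M * (4 * C * D ^ p * ((r + 4 * ν * m) ^ p + 4 * Fintype.card κ *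
          Real.exp ((M' + M : ℕ) * (lam ^ 2 * Fintype.card ι / 2) - lam * B) *
            (r + 4 * ν * m + 2 * ν * (Fintype.card ι * (M' + M : ℕ))) ^ p))) := by
  have hp0 : 0 < p := by linarith
  have hDp : 0 ≤ D ^ p := Real.rpow_nonneg hD _
  have hcross := cross_bound hp0 hC1 hD hC K e he hν hνp m σ σ' F F' (M' + M) hB hr hlam hX
  have hdisp := displacement hp1 hp2 hC1 hD hC K e he hν hνp m σ F hF M hT hT2 hmT
  have he1 : ∀ j, ‖e j‖ ^ p = 1 := fun j => by simpa using norm_e hp0 e he 1 j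
  set s := √(4 * C * D ^ p * (m : ℝ) ^ p) with hs
  have hs2 : s ^ 2 = 4 * C * D ^ p * (m : ℝ) ^ p := Real.sq_sqrt (by positivity)
  have hsb : ∀ (F : E → Ω → ℝ), (∀ x x', ∑ ω, |F x ω - F x' ω| ^ p ≤ D ^ p * ‖x - x'‖ ^ p) →
      ∀ x j, ‖feat p K (F (x + (m : ℝ) • e j)) - feat p K (F x)‖ ≤ s := by
    intro F hF x j
    refine Real.le_sqrt_of_sq_le ((feat_up hp0 hC1 hC K _ _).trans ?_)
    have := hF (x + (m : ℝ) • e j) x
    rw [add_sub_cancel_left, norm_e hp0 e he, abs_of_nonneg (by positivity)] at this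
    nlinarith
  have hρ : (((Fintype.card κ : ℝ) * Fintype.card ι) ^ 2 * (2 * s / m / m)) ^ 2 =
      16 * C * D ^ p * ((Fintype.card κ : ℝ) * Fintype.card ι) ^ 4 * (m : ℝ) ^ p / (m : ℝ) ^ 4 := by
    have : (m : ℝ) ≠ 0 := by exact_mod_cast NeZero.ne m
    rw [mul_pow, div_pow, div_pow, mul_pow 2 s, hs2]; field_simp; ring
  set a : κ → ι → ℝ := fun j i => sg (σ j i) with ha
  set b : κ → ι → ℝ := fun j i => sg (σ' j i) with hb
  set H2 : (ι → ℤ) → ℝ := fun y => ∑ l, (ph p K e m a F l y - ph p K e m b F' l y) ^ 2 with hH2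
  have hMr : (0 : ℝ) < M := by exact_mod_cast hM
  have hvar := var_up univ (fun l => Pm M (ph p K e m a F l)) (Pm M H2) _ (6 / M) (fun k z => by
    have := loc_bound hp1 hC1 hC K e he1 m a b hη0 hη F F' hF hF' (k + M) hMr
      (by push_cast; linarith [(Nat.cast_nonneg k : (0 : ℝ) ≤ k)]) z
      (fun ε => (Rr_sq_le p K e m σ F (Real.sqrt_nonneg _) (hsb F hF) (k + M) z ε).trans hρ.le)
      (fun ε => (Rr_sq_le p K e m σ' F' (Real.sqrt_nonneg _) (hsb F' hF') (k + M) z ε).trans hρ.le)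
    simp only [Pm_Pm]
    rw [show k + 1 + M = k + M + 1 by ring]
    exact this) M' 0
  rw [Pm_Pm] at hvar
  set Φ : Ω × K × Bool → (ι → ℤ) → ℝ := fun l => Pm M (ph p K e m a F l) with hΦ
  have hsym : ∑ l, Pm M' (fun z => (Φ l z - Φ l (-z)) ^ 2) 0 ≤
      4 * ∑ l, (Pm M' (fun z => Φ l z ^ 2) 0 - Pm M' (Φ l) 0 ^ 2) := by
    rw [mul_sum]; exact sum_le_sum fun l _ => sym_var M' (Φ l)
  set δ1 := 48 * C * D ^ p * (Fintype.card κ * T ^ p) with hδ1
  have hpt : ∀ y : ι → ℤ, (∀ i, |y i - (0 : ι → ℤ) i| ≤ M') →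
      (1 / 20) * ∑ j, |dot (a j) y| ^ p ≤ 6 * δ1 + 3 * ∑ l, (Φ l y - Φ l (-y)) ^ 2 := by
    intro y hy
    simp only [Pi.zero_apply, sub_zero] at hy
    have h1 := hlow y hy
    have h2 : ∑ j, |dot (a j) y| ^ p ≤ ‖JJ e a y - JJ e a (-y)‖ ^ p := by
      rw [← JJ_sub, JJ, he]
      refine sum_le_sum fun j _ => Real.rpow_le_rpow (abs_nonneg _) ?_ hp0.le
      rw [dot_sub, dot_neg, sub_neg_eq_add, ← two_mul, abs_mul, abs_two]
      linarith [abs_nonneg (dot (a j) y)]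
    have h3 := hdisp y
    have h4 := hdisp (-y)
    rw [EuclideanSpace.real_norm_sq_eq] at h1
    have h5 : ∑ l, (feat p K (F (JJ e a y)) - feat p K (F (JJ e a (-y)))) l ^ 2 ≤
        ∑ l, (3 * (Φ l y - ft p K l (F (JJ e a y))) ^ 2 + 3 * (Φ l y - Φ l (-y)) ^ 2 +
          3 * (Φ l (-y) - ft p K l (F (JJ e a (-y)))) ^ 2) := sum_le_sum fun l _ => by
      simp only [feat, PiLp.sub_apply]
      set u := Φ l y - ft p K l (F (JJ e a y)) with hu
      set v := Φ l y - Φ l (-y) with hv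
      set w := Φ l (-y) - ft p K l (F (JJ e a (-y))) with hw
      have : ft p K l (F (JJ e a y)) - ft p K l (F (JJ e a (-y))) = -u + v + w := by
        rw [hu, hv, hw]; ring
      rw [this]
      nlinarith [sq_nonneg (u + v), sq_nonneg (u + w), sq_nonneg (v - w)]
    rw [sum_add_distrib, sum_add_distrib, ← mul_sum, ← mul_sum, ← mul_sum] at h5
    linarith
  have hP := Pm_mono_box M' 0 hpt
  rw [Pm_mul, Pm_add, Pm_const, Pm_mul, Pm_sum, Pm_sum] at hP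
  have hsig : Fintype.card κ * (T' ^ p / 10) ≤ ∑ j, Pm M' (fun y => |dot (a j) y| ^ p) 0 :=
    le_trans (by simp) (sum_le_sum (f := fun _ => T' ^ p / 10)
      fun j _ => signal hp1 hp2 (σ j) M' hT' hT2')
  have hM'0 : (0 : ℝ) ≤ M' := Nat.cast_nonneg _
  have hfin := mul_le_mul_of_nonneg_left
    (mul_le_mul_of_nonneg_left hcross (by positivity : (0 : ℝ) ≤ 6 / M)) hM'0
  nlinarith

end H831Z.Un
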