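import Pool.Agent.H831Z.USide

/-! The local estimate using both glued spaces. -/

namespace H831Z.Un

open Finset

variable {E : Type*} [NormedAddCommGroup E] [NormedSpace ℝ E]
variable {ι κ Ω : Type*} [Fintype ι] [DecidableEq ι] [Fintype κ] [DecidableEq κ] [Fintype Ω]

lemma rpow_half_mul_le {p η x y : ℝ} (hη : 0 ≤ η) (hx : 0 ≤ x) (hy : 0 ≤ y) :
    (η * (x * y)) ^ (p / 2) ≤ η ^ (p / 2) * ((x ^ p + y ^ p) / 2) := by
  rw [Real.mul_rpow hη (mul_nonneg hx hy), Real.mul_rpow hx hy]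
  refine mul_le_mul_of_nonneg_left ?_ (Real.rpow_nonneg hη _)
  have e1 : x ^ p = (x ^ (p / 2)) ^ 2 := by
    rw [← Real.rpow_natCast, ← Real.rpow_mul hx]; congr 1; push_cast; ring
  have e2 : y ^ p = (y ^ (p / 2)) ^ 2 := by
    rw [← Real.rpow_natCast, ← Real.rpow_mul hy]; congr 1; push_cast; ring
  rw [e1, e2]
  nlinarith [sq_nonneg (x ^ (p / 2) - y ^ (p / 2))]

theorem loc_bound {p C D η ρ2 M : ℝ} (hp1 : 1 ≤ p) (hC1 : 1 ≤ C)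
    (hC : ∀ (K : Finset ℤ) (a b : ℝ), 0 ≤ a → 0 ≤ b →
      ∑ k ∈ K, w2 k ^ (-p) * min (w2 k ^ 2 * a) b ≤ C * (a ^ (p / 2) * b ^ (1 - p / 2)))
    (K : Finset ℤ) (e : κ → E) (he1 : ∀ j, ‖e j‖ ^ p = 1) (m : ℕ) [NeZero m] (a b : κ → ι → ℝ)
    (hη0 : 0 ≤ η)
    (hη : ∀ (c d : κ → ℝ) (α β : ℝ), 0 ≤ α → 0 ≤ β → ∑ j, |c j| ^ p ≤ α ^ p →
      ∑ j, |d j| ^ p ≤ β ^ p → |∑ i, syn a c i * syn b d i| ≤ η * (α * β))
    (F F' : E → Ω → ℝ)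
    (hF : ∀ x x', ∑ ω, |F x ω - F x' ω| ^ p ≤ D ^ p * ‖x - x'‖ ^ p)
    (hF' : ∀ x x', ∑ ω, |F' x ω - F' x' ω| ^ p ≤ D ^ p * ‖x - x'‖ ^ p)
    (m' : ℕ) (hM : 0 < M) (hm' : M ≤ (m' : ℝ) + 1) (z : ι → ℤ)
    (hRA : ∀ ε, ∑ l, Rr p K e m a F l m' z ε ^ 2 ≤ ρ2)
    (hRB : ∀ ε, ∑ l, Rr p K e m b F' l m' z ε ^ 2 ≤ ρ2) :
    ∑ l, avg (fun ε : ι → Bool =>
      (Pm m' (ph p K e m a F l) (z + st ε) - Pm m' (ph p K e m a F l) z) ^ 2) ≤
      (22 * ρ2 + 8 * C * (η ^ (p / 2) * (2 / M) ^ (1 - p / 2)) * (Fintype.card κ * D ^ p)) +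
        6 / M * Pm (m' + 1) (fun y => ∑ l, (ph p K e m a F l y - ph p K e m b F' l y) ^ 2) z := by
  have hp0 : 0 < p := by linarith
  set RA : Ω × K × Bool → ℝ := fun l => avg fun ε => Rr p K e m a F l m' z ε ^ 2 with hRAd
  set RB : Ω × K × Bool → ℝ := fun l => avg fun ε => Rr p K e m b F' l m' z ε ^ 2 with hRBd
  have sRA : ∑ l, RA l ≤ ρ2 := by rw [hRAd, ← avg_sum]; exact avg_le hRA
  have sRB : ∑ l, RB l ≤ ρ2 := by rw [hRBd, ← avg_sum]; exact avg_le hRB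
  have RA0 : ∀ l, 0 ≤ RA l := fun l => avg_nonneg fun _ => sq_nonneg _
  have RB0 : ∀ l, 0 ≤ RB l := fun l => avg_nonneg fun _ => sq_nonneg _
  set GA : Ω → ℝ := fun ω => (∑ j, Ga e m a F m' z ω j ^ p) ^ p⁻¹ with hGA
  set GB : Ω → ℝ := fun ω => (∑ j, Ga e m b F' m' z ω j ^ p) ^ p⁻¹ with hGB
  have nA : ∀ ω, 0 ≤ ∑ j, Ga e m a F m' z ω j ^ p := fun ω =>
    sum_nonneg fun j _ => Real.rpow_nonneg (Ga_nonneg _ _ _ _ _ _ _ _) _
  have nB : ∀ ω, 0 ≤ ∑ j, Ga e m b F' m' z ω j ^ p := fun ω =>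
    sum_nonneg fun j _ => Real.rpow_nonneg (Ga_nonneg _ _ _ _ _ _ _ _) _
  have GA0 : ∀ ω, 0 ≤ GA ω := fun ω => Real.rpow_nonneg (nA ω) _
  have GB0 : ∀ ω, 0 ≤ GB ω := fun ω => Real.rpow_nonneg (nB ω) _
  have GAp : ∀ ω, GA ω ^ p = ∑ j, Ga e m a F m' z ω j ^ p := fun ω =>
    Real.rpow_inv_rpow (nA ω) hp0.ne'
  have GBp : ∀ ω, GB ω ^ p = ∑ j, Ga e m b F' m' z ω j ^ p := fun ω =>
    Real.rpow_inv_rpow (nB ω) hp0.ne'
  have ccb : ∀ (a : κ → ι → ℝ) (F : E → Ω → ℝ) (l : Ω × K × Bool) (g : ℝ), 0 ≤ g →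
      g ^ p = ∑ j, Ga e m a F m' z l.1 j ^ p →
      ∑ j, |cc p K e m a F l m' z j| ^ p ≤ (amp p l.2.1 * w2 l.2.1 * g) ^ p := by
    intro a F l g hg hgp
    have h0 : 0 ≤ amp p l.2.1 * w2 l.2.1 := (mul_pos (amp_pos _ _) (w2_pos _)).le
    rw [Real.mul_rpow h0 hg, hgp, mul_sum]
    refine sum_le_sum fun j _ => ?_
    rw [← Real.mul_rpow h0 (Ga_nonneg _ _ _ _ _ _ _ _)]
    exact Real.rpow_le_rpow (abs_nonneg _) (abs_cc_le _ _ _ _ _ _ _ _ _ _) hp0.le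
  set H2 : Ω × K × Bool → ℝ := fun l =>
    Pm (m' + 1) (fun y => (ph p K e m a F l y - ph p K e m b F' l y) ^ 2) z with hH2
  have per : ∀ l : Ω × K × Bool, avg (fun ε : ι → Bool =>
      (Pm m' (ph p K e m a F l) (z + st ε) - Pm m' (ph p K e m a F l) z) ^ 2) ≤
      6 / M * H2 l + 12 * RA l + 10 * RB l +
        4 * (w2 l.2.1 ^ (-p) * min (w2 l.2.1 ^ 2 * (η * (GA l.1 * GB l.1))) (2 / M)) := by
    intro l
    have h1 := loc_le p K e m a F l m' z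
    have h2 := syn_diff p K e m a b F F' l m' z
    have h3 := syn_cap p K e m a F l m' z
    have h4 := syn_cap p K e m b F' l m' z
    have h0 : 0 ≤ amp p l.2.1 * w2 l.2.1 := (mul_pos (amp_pos _ _) (w2_pos _)).le
    have h5 := hη _ _ _ _ (mul_nonneg h0 (GA0 l.1)) (mul_nonneg h0 (GB0 l.1))
      (ccb a F l _ (GA0 l.1) (GAp l.1)) (ccb b F' l _ (GB0 l.1) (GBp l.1))
    set x := syn a (cc p K e m a F l m' z)
    set y := syn b (cc p K e m b F' l m' z)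
    have hW : 0 < w2 l.2.1 ^ (-p) := Real.rpow_pos_of_pos (w2_pos _) _
    have e1 : ∑ i, (x i - y i) ^ 2 = ∑ i, x i ^ 2 + ∑ i, y i ^ 2 - 2 * ∑ i, x i * y i := by
      rw [mul_sum, ← sum_add_distrib, ← sum_sub_distrib]; exact sum_congr rfl fun i _ => by ring
    have e2 : 0 ≤ ∑ i, (x i - y i) ^ 2 := sum_nonneg fun _ _ => sq_nonneg _
    have e3 : 0 ≤ ∑ i, y i ^ 2 := sum_nonneg fun _ _ => sq_nonneg _
    have e4 : η * (amp p l.2.1 * w2 l.2.1 * GA l.1 * (amp p l.2.1 * w2 l.2.1 * GB l.1)) =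
        w2 l.2.1 ^ (-p) * (w2 l.2.1 ^ 2 * (η * (GA l.1 * GB l.1))) := by
      rw [← amp_sq]; ring
    have e5 : w2 l.2.1 ^ (-p) / ((m' : ℝ) + 1) ≤ w2 l.2.1 ^ (-p) / M :=
      div_le_div_of_nonneg_left hW.le hM hm'
    have hH0 : 0 ≤ H2 l := Pm_nonneg _ _ fun _ => sq_nonneg _
    have e6 : H2 l / ((m' : ℝ) + 1) ≤ H2 l / M := div_le_div_of_nonneg_left hH0 hM hm'
    have e7 : ∑ i, x i * y i ≤ w2 l.2.1 ^ (-p) *
        min (w2 l.2.1 ^ 2 * (η * (GA l.1 * GB l.1))) (2 / M) + RA l + RB l := by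
      rw [mul_min_of_nonneg _ _ hW.le]
      have := RA0 l
      have := RB0 l
      rcases min_choice (w2 l.2.1 ^ (-p) * (w2 l.2.1 ^ 2 * (η * (GA l.1 * GB l.1))))
        (w2 l.2.1 ^ (-p) * (2 / M)) with h | h
      · rw [h, ← e4]; linarith [le_abs_self (∑ i, x i * y i)]
      · rw [h]
        have : w2 l.2.1 ^ (-p) * (2 / M) = 2 * (w2 l.2.1 ^ (-p) / M) := by ring
        rw [this]; linarith
    have : 6 / M * H2 l = 6 * (H2 l / M) := by ring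
    rw [this]
    linarith
  refine (sum_le_sum fun l _ => per l).trans ?_
  rw [sum_add_distrib, sum_add_distrib, sum_add_distrib, ← mul_sum, ← mul_sum, ← mul_sum,
    ← mul_sum, Pm_sum]
  have hb : (0 : ℝ) ≤ 2 / M := by positivity
  have hsum : ∑ l : Ω × K × Bool,
      w2 l.2.1 ^ (-p) * min (w2 l.2.1 ^ 2 * (η * (GA l.1 * GB l.1))) (2 / M) ≤
      2 * C * (η ^ (p / 2) * (2 / M) ^ (1 - p / 2)) * (Fintype.card κ * D ^ p) := by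
    rw [Fintype.sum_prod_type]
    have t1 : ∀ ω, ∑ y : K × Bool,
        w2 y.1 ^ (-p) * min (w2 y.1 ^ 2 * (η * (GA ω * GB ω))) (2 / M) ≤
        C * (η ^ (p / 2) * (2 / M) ^ (1 - p / 2)) * (GA ω ^ p + GB ω ^ p) := by
      intro ω
      rw [Fintype.sum_prod_type]
      simp only [sum_const, card_univ, Fintype.card_bool, nsmul_eq_mul, Nat.cast_ofNat, ← mul_sum]
      rw [sum_coe_sort K (fun k => w2 k ^ (-p) * min (w2 k ^ 2 * (η * (GA ω * GB ω))) (2 / M))]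
      have u1 := hC K (η * (GA ω * GB ω)) (2 / M) (mul_nonneg hη0 (mul_nonneg (GA0 ω) (GB0 ω))) hb
      have u2 := rpow_half_mul_le (p := p) hη0 (GA0 ω) (GB0 ω)
      have u3 : 0 ≤ C * (2 / M) ^ (1 - p / 2) := by positivity
      have u4 := mul_le_mul_of_nonneg_left u2 u3
      nlinarith
    refine (sum_le_sum fun ω _ => t1 ω).trans ?_
    rw [← mul_sum, sum_add_distrib]
    simp only [GAp, GBp]
    have v1 := Ga_sum hp1 e he1 m a F hF m' z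
    have v2 := Ga_sum hp1 e he1 m b F' hF' m' z
    have v3 : 0 ≤ C * (η ^ (p / 2) * (2 / M) ^ (1 - p / 2)) := by positivity
    nlinarith
  linarith

end H831Z.Un
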