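import Mathlib

/-! The numerical contradiction. -/

namespace H831Z.Un

lemma rpow_le_self' {x p : ℝ} (h0 : 0 ≤ x) (h1 : x ≤ 1) (hp : 1 ≤ p) : x ^ p ≤ x := by
  conv_rhs => rw [← Real.rpow_one x]
  exact Real.rpow_le_rpow_of_exponent_ge' h0 h1 (by norm_num) hp

theorem numeric {p C Dp ν N n sn l m η K X : ℝ} (hp1 : 1 ≤ p) (hp2 : p ≤ 2) (hC : 1 ≤ C)
    (hD : 0 ≤ Dp) (hν : 0 ≤ ν) (hνp : ν ^ p = N) (hN : 1 ≤ N) (hl : 2 ≤ l) (hsn : 4 * l ^ 4 ≤ sn)
    (hn : n = sn ^ 2) (hm : m = l ^ 2 * (N * n) ^ 2) (hη0 : 0 ≤ η) (hη : η ≤ n / l ^ 4)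
    (hK : l ^ 2 * m ^ 2 ≤ K) (hX0 : 0 ≤ X) (hX : l ^ 4 * N * (n * K) ^ 2 * X ≤ 1)
    (hA : 6000000 * C * Dp < l)
    (h : N * (l * (m * sn)) ^ p / 200 ≤ 288 * C * Dp * (N * (m * sn) ^ p) +
      12 * (l ^ 2 * m ^ 2) * ((22 * (16 * C * Dp * (N * n) ^ 4 * m ^ p / m ^ 4) +
        8 * C * (η ^ (p / 2) * (2 / m ^ 2) ^ (1 - p / 2)) * (N * Dp)) +
        6 / m ^ 2 * (4 * C * Dp * ((ν * (l * (m * sn) / l ^ 4) + 4 * ν * m) ^ p + 4 * N * X *
            (ν * (l * (m * sn) / l ^ 4) + 4 * ν * m + 2 * ν * (n * K)) ^ p)))) : False := by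
  have hp0 : 0 < p := by linarith
  have l0 : 0 < l := by linarith
  have l1 : 1 ≤ l := by linarith
  have l4 : 1 ≤ l ^ 4 := one_le_pow₀ l1
  have l2 : 1 ≤ l ^ 2 := one_le_pow₀ l1
  have sn1 : 1 ≤ sn := by linarith
  have n1 : 1 ≤ n := by rw [hn]; exact one_le_pow₀ sn1
  have Nn1 : 1 ≤ N * n := one_le_mul_of_one_le_of_one_le hN n1
  have m1 : 1 ≤ m := by rw [hm]; exact one_le_mul_of_one_le_of_one_le l2 (one_le_pow₀ Nn1)
  have m0 : 0 < m := by linarith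
  set T := m * sn with hT
  have T1 : 1 ≤ T := one_le_mul_of_one_le_of_one_le m1 sn1
  set T' := l * T with hT'
  have T'1 : 1 ≤ T' := one_le_mul_of_one_le_of_one_le l1 T1
  have hTp : 0 < T' ^ p := Real.rpow_pos_of_pos (by linarith) _
  have hCD : 0 ≤ C * Dp := by positivity
  set Y := C * Dp * (N * T' ^ p) / l with hY
  have t1 : C * Dp * (N * T ^ p) ≤ Y := by
    rw [hY, le_div_iff₀ l0, hT', Real.mul_rpow l0.le (by linarith)]
    have : l ≤ l ^ p := by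
      conv_lhs => rw [← Real.rpow_one l]
      exact Real.rpow_le_rpow_of_exponent_le l1 hp1
    have h0 : 0 ≤ C * Dp * (N * T ^ p) := by positivity
    nlinarith
  have t2 : (l ^ 2 * m ^ 2) * (C * Dp * (N * n) ^ 4 * m ^ p / m ^ 4) ≤ Y := by
    have e1 : (l ^ 2 * m ^ 2) * (C * Dp * (N * n) ^ 4 * m ^ p / m ^ 4) = C * Dp * m ^ p / l ^ 2 := by
      have : (N * n) ^ 4 = m ^ 2 / l ^ 4 := by rw [hm]; field_simp
      rw [this]; field_simp
    have e2 : m ^ p ≤ N * T' ^ p := by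
      have : m ≤ T' := by
        calc m = 1 * (m * 1) := by ring
          _ ≤ l * (m * sn) := by gcongr
      exact (Real.rpow_le_rpow m0.le this hp0.le).trans (le_mul_of_one_le_left hTp.le hN)
    rw [e1, hY]
    gcongr
    nlinarith
  have t3 : (l ^ 2 * m ^ 2) * (C * (η ^ (p / 2) * (2 / m ^ 2) ^ (1 - p / 2)) * (N * Dp)) ≤ 2 * Y := by
    have e1 : η ^ (p / 2) ≤ (sn / l ^ 2) ^ p := by
      have : n / l ^ 4 = (sn / l ^ 2) ^ (2 : ℝ) := by rw [hn, Real.rpow_two]; field_simp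
      refine (Real.rpow_le_rpow hη0 hη (by positivity)).trans (le_of_eq ?_)
      rw [this, ← Real.rpow_mul (by positivity)]; congr 1; ring
    have e2 : m ^ 2 * (2 / m ^ 2) ^ (1 - p / 2) ≤ 2 * m ^ p := by
      rw [Real.div_rpow (by norm_num) (by positivity), ← Real.rpow_two m,
        ← Real.rpow_mul m0.le, mul_div_assoc', mul_comm, mul_div_assoc, ← Real.rpow_sub m0]
      have f1 : (2 : ℝ) ^ (1 - p / 2) ≤ 2 := by
        conv_rhs => rw [← Real.rpow_one 2]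
        exact Real.rpow_le_rpow_of_exponent_le (by norm_num) (by linarith)
      have f2 : (2 : ℝ) - 2 * (1 - p / 2) = p := by ring
      rw [f2]
      exact mul_le_mul_of_nonneg_right f1 (by positivity)
    have e3 : (sn / l ^ 2) ^ p * m ^ p ≤ T' ^ p / l ^ 3 := by
      rw [← Real.mul_rpow (by positivity) m0.le]
      have : sn / l ^ 2 * m = T' * (1 / l ^ 3) := by rw [hT', hT]; field_simp
      rw [this, Real.mul_rpow (by linarith) (by positivity), div_eq_mul_one_div (T' ^ p)]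
      exact mul_le_mul_of_nonneg_left (rpow_le_self' (by positivity)
        ((div_le_one (by positivity)).2 (one_le_pow₀ l1)) hp1) hTp.le
    calc _ = C * Dp * N * l ^ 2 * (η ^ (p / 2) * (m ^ 2 * (2 / m ^ 2) ^ (1 - p / 2))) := by ring
      _ ≤ C * Dp * N * l ^ 2 * ((sn / l ^ 2) ^ p * (2 * m ^ p)) := by gcongr
      _ = 2 * (C * Dp * N * l ^ 2) * ((sn / l ^ 2) ^ p * m ^ p) := by ring
      _ ≤ 2 * (C * Dp * N * l ^ 2) * (T' ^ p / l ^ 3) := by gcongr
      _ = 2 * Y := by rw [hY]; field_simp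
  have hm4 : 4 * m ≤ T' / l ^ 4 := by
    rw [le_div_iff₀ (by positivity), hT', hT]
    calc 4 * m * l ^ 4 = 1 * (m * (4 * l ^ 4)) := by ring
      _ ≤ l * (m * sn) := by gcongr
  have t4 : l ^ 2 * (C * Dp * (ν * (T' / l ^ 4) + 4 * ν * m) ^ p) ≤ 2 * Y := by
    have e1 : ν * (T' / l ^ 4) + 4 * ν * m ≤ ν * (T' * (2 / l ^ 4)) := by
      have : ν * (4 * m) ≤ ν * (T' / l ^ 4) := mul_le_mul_of_nonneg_left hm4 hν
      have e : ν * (T' * (2 / l ^ 4)) = 2 * (ν * (T' / l ^ 4)) := by ring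
      linarith
    have l16 : 2 ≤ l ^ 4 := by
      calc (2 : ℝ) ≤ 2 ^ 4 := by norm_num
        _ ≤ l ^ 4 := by gcongr
    have e2 := Real.rpow_le_rpow (by positivity) e1 hp0.le
    rw [Real.mul_rpow hν (by positivity), Real.mul_rpow (by linarith) (by positivity), hνp] at e2
    have e3 : (2 / l ^ 4) ^ p ≤ 2 / l ^ 4 :=
      rpow_le_self' (by positivity) ((div_le_one (by positivity)).2 l16) hp1
    calc _ ≤ l ^ 2 * (C * Dp * (N * (T' ^ p * (2 / l ^ 4)))) := by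
          gcongr
          exact e2.trans (by gcongr)
      _ = 2 * Y / l := by rw [hY]; field_simp
      _ ≤ 2 * Y := div_le_self (by positivity) l1
  have K1 : 1 ≤ K := le_trans (one_le_mul_of_one_le_of_one_le l2 (one_le_pow₀ m1)) hK
  have nK1 : 1 ≤ n * K := one_le_mul_of_one_le_of_one_le n1 K1
  have t5 : l ^ 2 * (C * Dp * (N * X * (ν * (T' / l ^ 4) + 4 * ν * m + 2 * ν * (n * K)) ^ p)) ≤
      16 * Y := by
    have e0 : T' / l ^ 4 ≤ T' := div_le_self (by linarith) l4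
    have e1 : ν * (T' / l ^ 4) + 4 * ν * m + 2 * ν * (n * K) ≤ ν * (T' * (4 * (n * K))) := by
      have f1 : T' / l ^ 4 + 4 * m + 2 * (n * K) ≤ T' * (4 * (n * K)) := by nlinarith
      have := mul_le_mul_of_nonneg_left f1 hν
      linarith
    have e2 := Real.rpow_le_rpow (by positivity) e1 hp0.le
    rw [Real.mul_rpow hν (by positivity), Real.mul_rpow (by linarith) (by positivity), hνp] at e2
    have e3 : (4 * (n * K)) ^ p ≤ (4 * (n * K)) ^ 2 := by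
      rw [← Real.rpow_two]; exact Real.rpow_le_rpow_of_exponent_le (by linarith) hp2
    calc _ ≤ l ^ 2 * (C * Dp * (N * X * (N * (T' ^ p * (4 * (n * K)) ^ 2)))) := by
          gcongr
          exact e2.trans (by gcongr)
      _ = 16 * Y * (l ^ 4 * N * (n * K) ^ 2 * X) / l := by rw [hY]; field_simp; ring
      _ ≤ 16 * Y * 1 / l := by gcongr
      _ ≤ 16 * Y * 1 := div_le_self (by positivity) l1
      _ = 16 * Y := by ring
  have e : 12 * (l ^ 2 * m ^ 2) * ((22 * (16 * C * Dp * (N * n) ^ 4 * m ^ p / m ^ 4) +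
        8 * C * (η ^ (p / 2) * (2 / m ^ 2) ^ (1 - p / 2)) * (N * Dp)) +
        6 / m ^ 2 * (4 * C * Dp * ((ν * (T' / l ^ 4) + 4 * ν * m) ^ p + 4 * N * X *
            (ν * (T' / l ^ 4) + 4 * ν * m + 2 * ν * (n * K)) ^ p))) =
      4224 * ((l ^ 2 * m ^ 2) * (C * Dp * (N * n) ^ 4 * m ^ p / m ^ 4)) +
      96 * ((l ^ 2 * m ^ 2) * (C * (η ^ (p / 2) * (2 / m ^ 2) ^ (1 - p / 2)) * (N * Dp))) +
      288 * (l ^ 2 * (C * Dp * (ν * (T' / l ^ 4) + 4 * ν * m) ^ p)) +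
      1152 * (l ^ 2 * (C * Dp * (N * X * (ν * (T' / l ^ 4) + 4 * ν * m + 2 * ν * (n * K)) ^ p))) := by
    field_simp; ring
  rw [e] at h
  have hY0 : 0 ≤ Y := by positivity
  have h2 : N * T' ^ p / 200 ≤ 30000 * Y := by linarith
  have h3 : 30000 * Y < N * T' ^ p / 200 := by
    have hNT : 0 < N * T' ^ p := by positivity
    rw [hY, ← mul_div_assoc, div_lt_div_iff₀ l0 (by norm_num)]
    nlinarith
  linarith

end H831Z.Un
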