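import Pool.Agent.H831Z.UGlue
import Pool.Agent.H831Z.UNum

/-! Choice of parameters and the final construction. -/

namespace H831Z.Un

open Finset H831Z.UDefs
open scoped ENNReal

lemma exists_l (Z : ℕ) (A : ℝ) : ∃ s : ℕ, 6 ≤ (2 : ℝ) ^ s ∧ A < (2 : ℝ) ^ s ∧
    ((2 : ℝ) ^ s) ^ Z * Real.exp (-((2 : ℝ) ^ s) ^ 2) ≤ 1 / 100 := by
  have h0 : Filter.Tendsto (fun s : ℕ => (2 : ℝ) ^ s) Filter.atTop Filter.atTop :=
    tendsto_pow_atTop_atTop_of_one_lt (by norm_num)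
  have h1 := (Real.tendsto_pow_mul_exp_neg_atTop_nhds_zero Z).comp h0
  obtain ⟨s, h2, h3, h4⟩ := ((h0.eventually_ge_atTop 6).and ((h0.eventually_gt_atTop A).and
    (h1.eventually_le_const (by norm_num : (0 : ℝ) < 1 / 100)))).exists
  refine ⟨s, h2, h3, le_trans ?_ h4⟩
  refine mul_le_mul_of_nonneg_left (Real.exp_le_exp.2 ?_) (by positivity)
  nlinarith

theorem glued (P : ℝ≥0∞) [hP : Fact (1 ≤ P)] {ι κ : Type} [Fintype ι] [DecidableEq ι] [Fintype κ]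
    [DecidableEq κ] {p C C0 D ν r0 B lam η T T' : ℝ} (hp : p = P.toReal) (hp1 : 1 ≤ p) (hp2 : p < 2)
    (hC1 : 1 ≤ C) (hD0 : 0 ≤ D) (hDC : C0 ≤ D)
    (hC : ∀ (K : Finset ℤ) (a b : ℝ), 0 ≤ a → 0 ≤ b →
      ∑ k ∈ K, w2 k ^ (-p) * min (w2 k ^ 2 * a) b ≤ C * (a ^ (p / 2) * b ^ (1 - p / 2)))
    (ν0 : 0 < ν) (hνp : ν ^ p = Fintype.card κ) (m : ℕ) [NeZero m] (σ σ' : κ → ι → Bool)
    (hη0 : 0 ≤ η)
    (hη : ∀ (c d : κ → ℝ) (α β : ℝ), 0 ≤ α → 0 ≤ β → ∑ j, |c j| ^ p ≤ α ^ p →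
      ∑ j, |d j| ^ p ≤ β ^ p →
      |∑ i, syn (fun j i => sg (σ j i)) c i * syn (fun j i => sg (σ' j i)) d i| ≤ η * (α * β))
    (M M' : ℕ) (M0 : 0 < M) (B0 : 0 < B) (r00 : 0 < r0) (hlam : 0 ≤ lam)
    (hT : 0 < T) (hT2 : T ^ 2 = M * Fintype.card ι) (hmT : 2 * (m : ℝ) ≤ T)
    (hT' : 0 < T') (hT2' : T' ^ 2 = M' * Fintype.card ι)
    (hsp : ∀ y y', good (fun j i => sg (σ j i)) (fun j i => sg (σ' j i)) (M' + M) B y →
        good (fun j i => sg (σ j i)) (fun j i => sg (σ' j i)) (M' + M) B y' →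
        |∑ j, |dot (fun i => sg (σ j i)) (y - y')| ^ p -
          ∑ j, |dot (fun i => sg (σ' j i)) (y - y')| ^ p| ≤ Fintype.card κ * (2 * r0) ^ p) :
    ∃ (X : Type) (_ : MetricSpace X) (A A' : Set X), A ∪ A' = Set.univ ∧ IsoEmb P A ∧ IsoEmb P A' ∧
      (DistEmb P X C0 → Fintype.card κ * T' ^ p / 200 ≤ 288 * C * D ^ p * (Fintype.card κ * T ^ p) +
      12 * M' * ((22 * (16 * C * D ^ p * ((Fintype.card κ : ℝ) * Fintype.card ι) ^ 4 *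
          (m : ℝ) ^ p / (m : ℝ) ^ 4) +
        8 * C * (η ^ (p / 2) * (2 / M) ^ (1 - p / 2)) * (Fintype.card κ * D ^ p)) +
        6 / M * (4 * C * D ^ p * ((ν * r0 + 4 * ν * m) ^ p + 4 * Fintype.card κ *
          Real.exp ((M' + M : ℕ) * (lam ^ 2 * Fintype.card ι / 2) - lam * B) *
            (ν * r0 + 4 * ν * m + 2 * ν * (Fintype.card ι * (M' + M : ℕ))) ^ p)))) := by
  classical
  subst hp
  have hp0 : 0 < P.toReal := by linarith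
  obtain ⟨e, he⟩ := exists_basis P hp0 κ
  set aa : κ → ι → ℝ := fun j i => sg (σ j i) with haa
  set bb : κ → ι → ℝ := fun j i => sg (σ' j i) with hbb
  let Zt := {y // good aa bb (M' + M) B y}
  haveI : Nonempty Zt := ⟨⟨0, good_zero aa bb _ B0.le⟩⟩
  let Φ : Zt → lp (fun _ : ℕ => ℝ) P := fun y => JJ e aa y.1
  let Ψ : Zt → lp (fun _ : ℕ => ℝ) P := fun y => JJ e bb y.1
  have hH : ∀ y y', |dist (Φ y) (Φ y') - dist (Ψ y) (Ψ y')| ≤ 2 * (ν * r0) := by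
    intro y y'
    refine abs_sub_le_of_rpow hp1 dist_nonneg dist_nonneg (by positivity) ?_
    simp only [dist_eq_norm, Φ, Ψ, ← JJ_sub]
    rw [JJ, JJ, he, he, show 2 * (ν * r0) = ν * (2 * r0) by ring,
      Real.mul_rpow ν0.le (by positivity), hνp]
    exact hsp _ _ y.2 y'.2
  letI inst := Metric.glueMetricApprox Φ Ψ (ν * r0) (by positivity) hH
  have dll : ∀ x x' : lp (fun _ : ℕ => ℝ) P, dist (Sum.inl x : _ ⊕ lp (fun _ : ℕ => ℝ) P)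
    (Sum.inl x') = ‖x - x'‖ := fun x x' => dist_eq_norm x x'
  have drr : ∀ x x' : lp (fun _ : ℕ => ℝ) P, dist (Sum.inr x : lp (fun _ : ℕ => ℝ) P ⊕ _)
    (Sum.inr x') = ‖x - x'‖ := fun x x' => dist_eq_norm x x'
  have dlr : ∀ (y : Zt) (x x' : lp (fun _ : ℕ => ℝ) P),
      dist (Sum.inl x : lp (fun _ : ℕ => ℝ) P ⊕ lp (fun _ : ℕ => ℝ) P) (Sum.inr x') ≤
      ‖x - Φ y‖ + ‖x' - Ψ y‖ + ν * r0 := fun y x x' => by
    refine add_le_add ?_ le_rfl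
    rw [← dist_eq_norm, ← dist_eq_norm]
    exact ciInf_le (f := fun z : Zt => dist x (Φ z) + dist x' (Ψ z))
      ⟨0, by rintro _ ⟨z, rfl⟩; positivity⟩ y
  refine ⟨_, inst, Set.range Sum.inl, Set.range Sum.inr, Set.range_inl_union_range_inr, ?_, ?_, ?_⟩
  · refine ⟨fun x => Sum.elim id id x.1, ?_⟩
    rintro ⟨_, x, rfl⟩ ⟨_, x', rfl⟩
    exact (dll x x').symm
  · refine ⟨fun x => Sum.elim id id x.1, ?_⟩
    rintro ⟨_, x, rfl⟩ ⟨_, x', rfl⟩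
    exact (drr x x').symm
  rintro ⟨f0, s0, hs0, hf0⟩
  obtain ⟨f, hfd⟩ : ∃ f, f = fun x => s0⁻¹ • f0 x := ⟨_, rfl⟩
  have hfn : ∀ x y, ‖f x - f y‖ = ‖f0 x - f0 y‖ / s0 := fun x y => by
    simp only [hfd, ← smul_sub, norm_smul, norm_inv, Real.norm_eq_abs, abs_of_pos hs0]
    rw [div_eq_inv_mul]
  have flo : ∀ x y, dist x y ≤ ‖f x - f y‖ := fun x y => by
    rw [hfn, le_div_iff₀ hs0, mul_comm]; exact (hf0 x y).1
  have fup : ∀ x y, ‖f x - f y‖ ≤ D * dist x y := fun x y => by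
    rw [hfn, div_le_iff₀ hs0]
    refine (hf0 x y).2.trans ?_
    calc s0 * C0 * dist x y ≤ s0 * D * dist x y := by gcongr
      _ = _ := by ring
  have fll : ∀ x x', ‖f (Sum.inl x) - f (Sum.inl x')‖ ≤ D * ‖x - x'‖ := fun x x' => by
    have := fup (Sum.inl x) (Sum.inl x'); rwa [dll] at this
  have frr : ∀ x x', ‖f (Sum.inr x) - f (Sum.inr x')‖ ≤ D * ‖x - x'‖ := fun x x' => by
    have := fup (Sum.inr x) (Sum.inr x'); rwa [drr] at this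
  have flo' : ∀ x x', ‖x - x'‖ ≤ ‖f (Sum.inl x) - f (Sum.inl x')‖ := fun x x' => by
    have := flo (Sum.inl x) (Sum.inl x'); rwa [dll] at this
  obtain ⟨Ω, Kf, hΩ⟩ := exists_trunc hp0 hp2.le
    (Fintype.piFinset fun _ : ι => Icc (-(M' : ℤ)) M')
    (fun y => f (Sum.inl (JJ e aa y))) (fun y => f (Sum.inl (JJ e aa (-y))))
  exact core hp1 hp2.le hC1 hD0 hC Kf e he ν0.le hνp m σ σ' hη0 hη
    (fun x (ω : Ω) => f (Sum.inl x) ω) (fun x (ω : Ω) => f (Sum.inr x) ω)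
    (fun x x' => coord_le hp0 Ω _ _ hD0 (norm_nonneg _) (fll x x'))
    (fun x x' => coord_le hp0 Ω _ _ hD0 (norm_nonneg _) (frr x x'))
    M M' M0 B0.le (by positivity) hlam
    (fun y hy x x' => coord_le hp0 Ω _ _ hD0 (by positivity)
      ((fup _ _).trans (mul_le_mul_of_nonneg_left (dlr ⟨y, hy⟩ x x') hD0)))
    hT hT2 hmT hT' hT2'
    (fun y hy => le_trans (div_le_div_of_nonneg_right (Real.rpow_le_rpow (norm_nonneg _)
      (flo' _ _) hp0.le) (by norm_num))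
      (hΩ y (Fintype.mem_piFinset.2 fun i => mem_Icc.2 (abs_le.1 (hy i)))))

set_option maxHeartbeats 800000 in
theorem main (P : ℝ≥0∞) [hP : Fact (1 ≤ P)] (hP2 : P < 2) (C0 : ℝ) :
    ∃ (X : Type) (_ : MetricSpace X) (A B : Set X), A ∪ B = Set.univ ∧ IsoEmb P A ∧ IsoEmb P B ∧
      ¬ DistEmb P X C0 := by
  classical
  obtain ⟨p, hp⟩ : ∃ p, p = P.toReal := ⟨_, rfl⟩
  have hPt : P ≠ ⊤ := (hP2.trans (by simp)).ne
  have hp1 : 1 ≤ p := by rw [hp]; simpa using ENNReal.toReal_mono hPt hP.out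
  have hp2 : p < 2 := by rw [hp]; simpa using (ENNReal.toReal_lt_toReal hPt (by simp)).2 hP2
  have hp0 : 0 < p := by linarith
  obtain ⟨C, hC1, hC⟩ := geom_bound hp0 hp2
  obtain ⟨D, hD⟩ : ∃ D, D = max C0 1 := ⟨_, rfl⟩
  have hD0 : 0 ≤ D := hD ▸ le_trans zero_le_one (le_max_right _ _)
  have hDC : C0 ≤ D := hD ▸ le_max_left _ _
  obtain ⟨a, ha⟩ := exists_nat_ge (34 / (2 - p))
  rw [div_le_iff₀ (by linarith)] at ha
  obtain ⟨s, hl6, hlA, hlZ⟩ := exists_l (152 * a + 574) (6000000 * C * D ^ p)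
  obtain ⟨l, hl⟩ : ∃ l : ℝ, l = 2 ^ s := ⟨_, rfl⟩
  rw [← hl] at hl6 hlA hlZ
  have l0 : 0 < l := by linarith
  have l1 : 1 ≤ l := by linarith
  have l36 : 36 ≤ l ^ 2 := by
    calc (36 : ℝ) = 6 ^ 2 := by norm_num
      _ ≤ l ^ 2 := pow_le_pow_left₀ (by norm_num) hl6 2
  have l3 : l ^ 2 + 1 ≤ l ^ 3 := by
    have : l ^ 2 * 2 ≤ l ^ 2 * l := mul_le_mul_of_nonneg_left (by linarith) (by positivity)
    calc l ^ 2 + 1 ≤ l ^ 2 * 2 := by linarith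
      _ ≤ l ^ 2 * l := this
      _ = l ^ 3 := by ring
  have hpow : ∀ i j : ℕ, i ≤ j → l ^ i ≤ l ^ j := fun i j h => pow_le_pow_right₀ l1 h
  have hsm : ∀ i : ℕ, i ≤ 152 * a + 574 → l ^ i * Real.exp (-l ^ 2) ≤ 1 / 100 := fun i hi =>
    le_trans (mul_le_mul_of_nonneg_right (hpow _ _ hi) (Real.exp_pos _).le) hlZ
  have hX : Real.exp (1 / 2 - l ^ 2) ≤ 2 * Real.exp (-l ^ 2) := by
    rw [sub_eq_add_neg, Real.exp_add]
    refine mul_le_mul_of_nonneg_right ?_ (Real.exp_pos _).le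
    have := Real.exp_bound_div_one_sub_of_interval' (x := 1 / 2) (by norm_num) (by norm_num)
    linarith
  obtain ⟨q, hq⟩ : ∃ q, q = s * (8 * a + 16) := ⟨_, rfl⟩
  obtain ⟨T0, hT0⟩ : ∃ T0, T0 = 2 ^ (s * 28) := ⟨_, rfl⟩
  obtain ⟨sn, hsn⟩ : ∃ sn, sn = l ^ (4 * a + 8) := ⟨_, rfl⟩
  have sn0 : 0 < sn := by rw [hsn]; positivity
  have hn : (2 : ℝ) ^ q = sn ^ 2 := by
    rw [hq, hsn, pow_mul, ← hl, ← pow_mul l]; congr 1; ring
  have hT0r : (T0 : ℝ) = l ^ 28 := by rw [hT0, hl]; push_cast; rw [pow_mul]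
  have hcι : (Fintype.card (Fin q → Bool) : ℝ) = sn ^ 2 := by simp [← hn]
  have hcκ : (Fintype.card (Fin T0 × (Fin q → Bool)) : ℝ) = l ^ 28 * sn ^ 2 := by
    rw [Fintype.card_prod, Nat.cast_mul, hcι, Fintype.card_fin, hT0r]
  obtain ⟨N, hN⟩ : ∃ N : ℝ, N = l ^ 28 * sn ^ 2 := ⟨_, rfl⟩
  have N0 : 0 < N := by rw [hN]; positivity
  rw [← hN] at hcκ
  obtain ⟨m, hm⟩ : ∃ m : ℕ, m = (2 ^ s) ^ (32 * a + 122) := ⟨_, rfl⟩
  have hmr : (m : ℝ) = l ^ (32 * a + 122) := by rw [hm, hl]; push_cast; rfl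
  have hmr' : (m : ℝ) = l ^ 2 * (N * sn ^ 2) ^ 2 := by rw [hmr, hN, hsn]; ring
  haveI : NeZero m := ⟨by rw [hm]; positivity⟩
  have m0 : (0 : ℝ) < m := by rw [hmr]; positivity
  obtain ⟨M, hM⟩ : ∃ M : ℕ, M = m ^ 2 := ⟨_, rfl⟩
  obtain ⟨M', hM'⟩ : ∃ M' : ℕ, M' = (2 ^ s) ^ 2 * m ^ 2 := ⟨_, rfl⟩
  have hMr : (M : ℝ) = (m : ℝ) ^ 2 := by rw [hM]; push_cast; rfl
  have hM'r : (M' : ℝ) = l ^ 2 * (m : ℝ) ^ 2 := by rw [hM', hl]; push_cast; rfl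
  have M0 : 0 < M := by rw [hM]; exact pow_pos (NeZero.pos m) 2
  obtain ⟨K, hK⟩ : ∃ K : ℝ, K = ((M' + M : ℕ) : ℝ) := ⟨_, rfl⟩
  have hKr : K = (l ^ 2 + 1) * (m : ℝ) ^ 2 := by rw [hK]; push_cast; rw [hM'r, hMr]; ring
  have hKle : K ≤ l ^ (64 * a + 247) := by
    rw [hKr, hmr]
    calc _ ≤ l ^ 3 * (l ^ (32 * a + 122)) ^ 2 := by gcongr
      _ = _ := by ring
  have K0 : 0 < K := by rw [hKr]; positivity
  obtain ⟨W, hW⟩ : ∃ W, W = √(sn ^ 2 * K) := ⟨_, rfl⟩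
  have W0 : 0 < W := hW ▸ Real.sqrt_pos.2 (by positivity)
  have hW2 : W ^ 2 = sn ^ 2 * K := hW ▸ Real.sq_sqrt (by positivity)
  obtain ⟨T', hT'⟩ : ∃ T', T' = l * (m * sn) := ⟨_, rfl⟩
  have T'0 : 0 < T' := by rw [hT']; positivity
  have hWT : W ≤ 2 * T' := by
    rw [hW]
    refine Real.sqrt_le_iff.2 ⟨by positivity, ?_⟩
    rw [hKr, hT']
    have : l ^ 2 + 1 ≤ 4 * l ^ 2 := by linarith
    calc _ ≤ sn ^ 2 * (4 * l ^ 2 * (m : ℝ) ^ 2) := by gcongr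
      _ = _ := by ring
  obtain ⟨B, hB⟩ : ∃ B, B = l ^ 2 * W := ⟨_, rfl⟩
  have B0 : 0 < B := by rw [hB]; positivity
  obtain ⟨r0, hr0⟩ : ∃ r0, r0 = T' / l ^ 4 := ⟨_, rfl⟩
  have r00 : 0 < r0 := by rw [hr0]; positivity
  obtain ⟨ν, hν⟩ : ∃ ν, ν = N ^ p⁻¹ := ⟨_, rfl⟩
  have ν0 : 0 < ν := by rw [hν]; positivity
  have hνp : ν ^ p = N := hν ▸ Real.rpow_inv_rpow N0.le hp0.ne'
  obtain ⟨δ, hδ⟩ : ∃ δ, δ = N * (2 * r0) ^ p := ⟨_, rfl⟩
  have δ0 : 0 < δ := by rw [hδ]; positivity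
  have hBp : 0 < (2 * B) ^ p := by positivity
  obtain ⟨σ, σ', hf, hf', hco, hsp⟩ := exists_frames q T0 (M' + M) (p := p) (μ := l ^ 2 * sn)
    (lam := 1 / sn) (B := B) (δ := δ) (lam' := δ / (N * ((2 * B) ^ p) ^ 2)) hp0.le
    (by positivity) (by positivity) (by positivity) (by
      have e : (1 / sn) ^ 2 * 2 ^ q / 2 - 1 / sn * (l ^ 2 * sn) = 1 / 2 - l ^ 2 := by
        rw [hn]; field_simp
      rw [e, Nat.cast_mul, hT0r, hn]
      have := hsm (16 * a + 60) (by omega)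
      calc _ ≤ 2 * (l ^ 28 * (2 : ℕ) * sn ^ 2 * sn ^ 2) * (2 * Real.exp (-l ^ 2)) := by gcongr
        _ = 8 * (l ^ (16 * a + 60) * Real.exp (-l ^ 2)) := by rw [hsn]; push_cast; ring
        _ < 1 := by linarith) (by
      rw [hcκ, ← hK]
      have e : (δ / (N * ((2 * B) ^ p) ^ 2)) ^ 2 * (N * ((2 * B) ^ p) ^ 2) / 2 -
          δ / (N * ((2 * B) ^ p) ^ 2) * δ = -(N * ((r0 / B) ^ p) ^ 2 / 2) := by
        have : r0 / B = (2 * r0) / (2 * B) := by field_simp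
        rw [this, Real.div_rpow (by positivity) (by positivity), hδ]; field_simp; ring
      have f1 : 1 / (2 * l ^ 6) ≤ r0 / B := by
        rw [hr0, hB, div_le_div_iff₀ (by positivity) (by positivity)]
        calc 1 * (l ^ 2 * W) ≤ 1 * (l ^ 2 * (2 * T')) := by gcongr
          _ = _ := by field_simp
      have f2 : (1 / (2 * l ^ 6)) ^ 2 ≤ (r0 / B) ^ p := by
        refine le_trans ?_ (Real.rpow_le_rpow (by positivity) f1 hp0.le)
        rw [← Real.rpow_two]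
        refine Real.rpow_le_rpow_of_exponent_ge (by positivity) ?_ hp2.le
        rw [div_le_one (by positivity)]; linarith [one_le_pow₀ (n := 6) l1]
      have f3 : ((2 ^ q : ℕ) : ℝ) * l ^ 2 ≤ N * ((r0 / B) ^ p) ^ 2 / 2 := by
        push_cast
        rw [hn]
        calc sn ^ 2 * l ^ 2 ≤ sn ^ 2 * l ^ 2 * (l ^ 2 / 32) :=
              le_mul_of_one_le_right (by positivity) (by linarith)
          _ = N * ((1 / (2 * l ^ 6)) ^ 2) ^ 2 / 2 := by rw [hN]; field_simp; norm_num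
          _ ≤ _ := by gcongr
      have f4 : (4 * K + 1) * Real.exp (-l ^ 2) ≤ 1 / 20 := by
        have := hsm (64 * a + 247) (by omega)
        have h1 := one_le_pow₀ (n := 64 * a + 247) l1
        calc _ ≤ (5 * l ^ (64 * a + 247)) * Real.exp (-l ^ 2) := by gcongr; linarith
          _ ≤ _ := by linarith
      rw [e]
      calc _ ≤ 2 * (4 * K + 1) ^ (2 ^ q) * Real.exp (((2 ^ q : ℕ) : ℝ) * (-l ^ 2)) := by
            gcongr; linarith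
        _ = 2 * ((4 * K + 1) * Real.exp (-l ^ 2)) ^ (2 ^ q) := by
            rw [Real.exp_nat_mul, mul_pow]; ring
        _ ≤ 2 * ((4 * K + 1) * Real.exp (-l ^ 2)) := by
            gcongr
            exact pow_le_of_le_one (by positivity) (by linarith) (by positivity)
        _ < 1 := by linarith)
  have hθτ : ((l ^ (2 * a))⁻¹) ^ (2 - p) ≤ ((l ^ 34)⁻¹) ^ 2 := by
    rw [← Real.rpow_natCast, ← Real.rpow_natCast, ← Real.rpow_neg l0.le, ← Real.rpow_mul l0.le,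
      ← Real.rpow_natCast, ← Real.rpow_neg l0.le, ← Real.rpow_mul l0.le]
    refine Real.rpow_le_rpow_of_exponent_le l1 ?_
    push_cast; linarith
  have hsn4 : 4 * l ^ 4 ≤ sn := by
    calc 4 * l ^ 4 ≤ l * l ^ 4 := by gcongr; linarith
      _ = l ^ 5 := by ring
      _ ≤ sn := hsn ▸ hpow _ _ (by omega)
  obtain ⟨X, inst, A, A', hU, hA, hA', himp⟩ := glued P (C0 := C0) (T := m * sn) (T' := T')
    (lam := 1 / W) hp hp1 hp2 hC1 hD0 hDC hC ν0 (hνp.trans hcκ.symm) m σ σ' (by positivity)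
    (incoh (μ := l ^ 2 * sn) (θ := (l ^ (2 * a))⁻¹) (τ := (l ^ 34)⁻¹) (by positivity)
      (by positivity) hf hf' hco hp1 hp2.le (by positivity) (by positivity) hθτ)
    M M' M0 B0 r00 (by positivity) (by positivity) (by rw [hMr, hcι]; ring)
    (by
      rw [mul_comm]
      exact mul_le_mul_of_nonneg_left (by linarith [one_le_pow₀ (n := 4) l1]) m0.le) T'0 (by rw [hM'r, hcι, hT']; ring)
    (by rw [hcκ, ← hδ]; exact hsp)
  refine ⟨X, inst, A, A', hU, hA, hA', fun hemb => ?_⟩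
  have hcore := himp hemb
  have hexp : K * ((1 / W) ^ 2 * sn ^ 2 / 2) - 1 / W * B = 1 / 2 - l ^ 2 := by
    rw [hB, div_pow, hW2]; field_simp
  rw [hcκ, hcι, ← hK, hexp, hMr, hM'r, hr0, hT'] at hcore
  refine numeric (X := Real.exp (1 / 2 - l ^ 2)) (K := K) hp1 hp2.le hC1 (Real.rpow_nonneg hD0 p)
    ν0.le hνp ?_ (by linarith) hsn4 rfl hmr' (by positivity) ?_ ?_ (Real.exp_pos _).le ?_ hlA hcore
  · rw [hN]
    exact one_le_mul_of_one_le_of_one_le (one_le_pow₀ l1) (one_le_pow₀ (hsn ▸ one_le_pow₀ l1))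
  · have : l ^ 2 * sn / ((l ^ (2 * a))⁻¹) ^ 2 + 2 * (2 * N) * (l ^ 34)⁻¹ =
        sn ^ 2 / l ^ 4 * (5 / l ^ 2) := by rw [hN, hsn]; field_simp; ring
    rw [this]
    refine mul_le_of_le_one_right (by positivity) ?_
    rw [div_le_one (by positivity)]; linarith
  · rw [hKr]; gcongr; linarith
  · have := hsm (152 * a + 574) le_rfl
    calc _ ≤ l ^ 4 * N * (sn ^ 2 * l ^ (64 * a + 247)) ^ 2 * (2 * Real.exp (-l ^ 2)) := by gcongr
      _ = 2 * (l ^ (152 * a + 574) * Real.exp (-l ^ 2)) := by rw [hN, hsn]; ring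
      _ ≤ 1 := by linarith

end H831Z.Un
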