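import Pool.Agent.H831Z.UWalk
import Pool.Agent.H831Z.UBox
import Pool.Agent.H831Z.UFeat
import Pool.Agent.H831Z.UFrame

/-! Estimates for one of the two glued spaces. -/

namespace H831Z.Un

open Finset

variable {E : Type*} [NormedAddCommGroup E] [NormedSpace ℝ E]
variable {ι κ Ω : Type*} [Fintype ι] [DecidableEq ι] [Fintype κ] [DecidableEq κ] [Fintype Ω]

/-- the linear map from the lattice -/
noncomputable def JJ (e : κ → E) (a : κ → ι → ℝ) (y : ι → ℤ) : E := ∑ j, dot (a j) y • e j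

/-- twice smoothed function -/
noncomputable def QQ {H : Type*} [NormedAddCommGroup H] [NormedSpace ℝ H] (e : κ → E) (m : ℕ)
    (f : E → H) : E → H := Qb e m (Qb e m f)

lemma QQ_eq {H : Type*} [NormedAddCommGroup H] [NormedSpace ℝ H] (e : κ → E) (m : ℕ)
    (f : E → H) (x : E) :
    QQ e m f x = avg fun t : (κ → Fin m) × (κ → Fin m) => f (x + (bx e t.1 + bx e t.2)) := by
  rw [avg_prod]; simp only [QQ, Qb, add_assoc]

/-- smoothed features on the lattice -/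
noncomputable def ph (p : ℝ) (K : Finset ℤ) (e : κ → E) (m : ℕ) (a : κ → ι → ℝ) (F : E → Ω → ℝ)
    (l : Ω × K × Bool) (y : ι → ℤ) : ℝ := QQ e m (fun x => ft p K l (F x)) (JJ e a y)

lemma QQ_coord (p : ℝ) (K : Finset ℤ) (e : κ → E) (m : ℕ) (F : E → Ω → ℝ)
    (l : Ω × K × Bool) (x : E) :
    QQ e m (fun x => feat p K (F x)) x l = QQ e m (fun x => ft p K l (F x)) x := by
  rw [QQ_eq, QQ_eq]
  exact avg_map (EuclideanSpace.projₗ l) _

/-- coordinate increments -/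
noncomputable def cc (p : ℝ) (K : Finset ℤ) (e : κ → E) (m : ℕ) (a : κ → ι → ℝ) (F : E → Ω → ℝ)
    (l : Ω × K × Bool) (m' : ℕ) (z : ι → ℤ) (j : κ) : ℝ :=
  Pm m' (fun y => QQ e m (fun x => ft p K l (F x)) (JJ e a y + e j) -
    QQ e m (fun x => ft p K l (F x)) (JJ e a y)) z

/-- remainder of the linear approximation -/
noncomputable def Rr (p : ℝ) (K : Finset ℤ) (e : κ → E) (m : ℕ) (a : κ → ι → ℝ) (F : E → Ω → ℝ)
    (l : Ω × K × Bool) (m' : ℕ) (z : ι → ℤ) (ε : ι → Bool) : ℝ :=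
  Pm m' (ph p K e m a F l) (z + st ε) - Pm m' (ph p K e m a F l) z -
    ∑ i, syn a (cc p K e m a F l m' z) i * sg (ε i)

lemma sg_mul (b c : Bool) : sg b * sg c = sg (b == c) := by cases b <;> cases c <;> simp [sg]

omit [DecidableEq ι] [DecidableEq κ] in
lemma JJ_add (e : κ → E) (a : κ → ι → ℝ) (y z : ι → ℤ) :
    JJ e a (y + z) = JJ e a y + JJ e a z := by
  simp [JJ, dot_add, add_smul, sum_add_distrib]

omit [DecidableEq ι] [DecidableEq κ] in
lemma JJ_sub (e : κ → E) (a : κ → ι → ℝ) (y z : ι → ℤ) :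
    JJ e a (y - z) = JJ e a y - JJ e a z := by
  simp [JJ, dot_sub, sub_smul, sum_sub_distrib]

omit [DecidableEq ι] [DecidableEq κ] in
lemma JJ_zero (e : κ → E) (a : κ → ι → ℝ) : JJ e a 0 = 0 := by
  simp [JJ, dot_zero]

omit [DecidableEq ι] [DecidableEq κ] in
lemma JJ_st (e : κ → E) (σ : κ → ι → Bool) (ε : ι → Bool) :
    JJ e (fun j i => sg (σ j i)) (st ε) =
      ∑ t ∈ (univ : Finset (κ × ι)), sg (σ t.1 t.2 == ε t.2) • e t.1 := by
  rw [Fintype.sum_prod_type, JJ]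
  refine sum_congr rfl fun j _ => ?_
  rw [dot_st, sum_smul]
  exact sum_congr rfl fun i _ => by rw [sg_mul]

lemma Rr_sq_le (p : ℝ) (K : Finset ℤ) (e : κ → E) (m : ℕ) [NeZero m] (σ : κ → ι → Bool)
    (F : E → Ω → ℝ) {s : ℝ} (hs0 : 0 ≤ s)
    (hs : ∀ x j, ‖feat p K (F (x + (m : ℝ) • e j)) - feat p K (F x)‖ ≤ s)
    (m' : ℕ) (z : ι → ℤ) (ε : ι → Bool) :
    ∑ l, Rr p K e m (fun j i => sg (σ j i)) F l m' z ε ^ 2 ≤
      (((Fintype.card κ : ℝ) * Fintype.card ι) ^ 2 * (2 * s / m / m)) ^ 2 := by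
  set a : κ → ι → ℝ := fun j i => sg (σ j i) with ha
  set G := QQ e m (fun x => feat p K (F x)) with hG
  set R : (ι → ℤ) → EuclideanSpace ℝ (Ω × K × Bool) := fun y =>
    G (JJ e a y + ∑ t ∈ (univ : Finset (κ × ι)), sg (σ t.1 t.2 == ε t.2) • e t.1) - G (JJ e a y) -
      ∑ t ∈ (univ : Finset (κ × ι)), sg (σ t.1 t.2 == ε t.2) • (G (JJ e a y + e t.1) - G (JJ e a y))
    with hR
  have hRn : ∀ y, ‖R y‖ ≤ ((Fintype.card κ : ℝ) * Fintype.card ι) ^ 2 * (2 * s / m / m) := by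
    intro y
    have := lin_approx e G (s := 2 * s / m / m) (by positivity)
      (fun j' x j => second_diff e (fun x => feat p K (F x)) hs j j' x)
      (fun t : κ × ι => σ t.1 t.2 == ε t.2) Prod.fst (JJ e a y) univ
    simpa [card_univ] using this
  have hRr : ∀ l, Rr p K e m a F l m' z ε = Pm m' (fun y => R y l) z := by
    intro l
    have e1 : ∑ i, syn a (cc p K e m a F l m' z) i * sg (ε i) =
        Pm m' (fun y => ∑ t ∈ (univ : Finset (κ × ι)), sg (σ t.1 t.2 == ε t.2) *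
          (G (JJ e a y + e t.1) l - G (JJ e a y) l)) z := by
      rw [Pm_sum, Fintype.sum_prod_type, sum_comm]
      refine sum_congr rfl fun i _ => ?_
      rw [syn, sum_mul]
      refine sum_congr rfl fun j _ => ?_
      rw [Pm_mul, ← sg_mul]
      simp only [hG, QQ_coord, cc, ha]; ring
    rw [Rr, e1, ← Pm_shift, ← Pm_sub, ← Pm_sub]
    congr 1; funext y
    simp only [hR, PiLp.sub_apply, WithLp.ofLp_sum, Finset.sum_apply, PiLp.smul_apply, smul_eq_mul,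
      ph, JJ_add, ha, JJ_st, hG, QQ_coord]
  simp only [hRr]
  refine (sum_le_sum fun l _ => Pm_sq_le m' _ z).trans ?_
  rw [← Pm_sum]
  refine Pm_le _ _ fun y => ?_
  rw [← EuclideanSpace.real_norm_sq_eq]
  exact pow_le_pow_left₀ (norm_nonneg _) (hRn y) 2

lemma Dc_eq (p : ℝ) (K : Finset ℤ) (e : κ → E) (m : ℕ) (a : κ → ι → ℝ) (F : E → Ω → ℝ)
    (l : Ω × K × Bool) (m' : ℕ) (z : ι → ℤ) (i : ι) :
    syn a (cc p K e m a F l m' z) i = Dc i (Pm m' (ph p K e m a F l)) z -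
      avg fun ε => sg (ε i) * Rr p K e m a F l m' z ε := by
  simp only [Rr, mul_sub, avg_sub, avg_lin_mul, avg_mul', avg_sg, Dc]
  ring

omit [Fintype Ω] in
lemma abs_ft_le (p : ℝ) (K : Finset ℤ) (l : Ω × K × Bool) (u : Ω → ℝ) :
    |ft p K l u| ≤ amp p l.2.1 := by
  rw [ft, abs_mul, abs_of_pos (amp_pos _ _)]
  exact mul_le_of_le_one_right (amp_pos _ _).le (abs_tr_le _ _)

omit [DecidableEq ι] [Fintype Ω] in
lemma ph_sq_le (p : ℝ) (K : Finset ℤ) (e : κ → E) (m : ℕ) [NeZero m] (a : κ → ι → ℝ)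
    (F : E → Ω → ℝ) (l : Ω × K × Bool) (y : ι → ℤ) :
    ph p K e m a F l y ^ 2 ≤ w2 l.2.1 ^ (-p) := by
  rw [← amp_sq, ← sq_abs]
  refine pow_le_pow_left₀ (abs_nonneg _) ?_ 2
  rw [ph, QQ_eq]
  exact (abs_avg_le _).trans (avg_le fun _ => abs_ft_le _ _ _ _)

lemma bessel' (g : (ι → Bool) → ℝ) :
    ∑ i, avg (fun ε => sg (ε i) * g ε) ^ 2 ≤ avg (fun ε => g ε ^ 2) := by
  have := bessel g
  nlinarith [sq_nonneg (avg g)]

lemma syn_cap (p : ℝ) (K : Finset ℤ) (e : κ → E) (m : ℕ) [NeZero m] (a : κ → ι → ℝ)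
    (F : E → Ω → ℝ) (l : Ω × K × Bool) (m' : ℕ) (z : ι → ℤ) :
    ∑ i, syn a (cc p K e m a F l m' z) i ^ 2 ≤ 2 * (w2 l.2.1 ^ (-p) / ((m' : ℝ) + 1)) +
      2 * avg fun ε => Rr p K e m a F l m' z ε ^ 2 := by
  have h1 := bessel_multi' m' (ph p K e m a F l) z
  have h2 := bessel' (Rr p K e m a F l m' z)
  have h3 : Pm (m' + 1) (fun y => ph p K e m a F l y ^ 2) z / ((m' : ℝ) + 1) ≤
      w2 l.2.1 ^ (-p) / ((m' : ℝ) + 1) :=
    div_le_div_of_nonneg_right (Pm_le _ _ fun y => ph_sq_le p K e m a F l y) (by positivity)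
  have h4 : ∑ i, syn a (cc p K e m a F l m' z) i ^ 2 ≤
      ∑ i, (2 * Dc i (Pm m' (ph p K e m a F l)) z ^ 2 +
        2 * avg (fun ε => sg (ε i) * Rr p K e m a F l m' z ε) ^ 2) :=
    sum_le_sum fun i _ => by
      rw [Dc_eq]
      nlinarith [sq_nonneg (Dc i (Pm m' (ph p K e m a F l)) z +
        avg fun ε => sg (ε i) * Rr p K e m a F l m' z ε)]
  rw [sum_add_distrib, ← mul_sum, ← mul_sum] at h4
  linarith

lemma syn_diff (p : ℝ) (K : Finset ℤ) (e : κ → E) (m : ℕ) (a b : κ → ι → ℝ)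
    (F F' : E → Ω → ℝ) (l : Ω × K × Bool) (m' : ℕ) (z : ι → ℤ) :
    ∑ i, (syn a (cc p K e m a F l m' z) i - syn b (cc p K e m b F' l m' z) i) ^ 2 ≤
      3 * (Pm (m' + 1) (fun y => (ph p K e m a F l y - ph p K e m b F' l y) ^ 2) z /
        ((m' : ℝ) + 1)) + 3 * avg (fun ε => Rr p K e m a F l m' z ε ^ 2) +
      3 * avg fun ε => Rr p K e m b F' l m' z ε ^ 2 := by
  have h1 := bessel_multi' m' (fun y => ph p K e m a F l y - ph p K e m b F' l y) z
  have h2 := bessel' (Rr p K e m a F l m' z)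
  have h2' := bessel' (Rr p K e m b F' l m' z)
  have hD : ∀ i, Dc i (Pm m' (fun y => ph p K e m a F l y - ph p K e m b F' l y)) z =
      Dc i (Pm m' (ph p K e m a F l)) z - Dc i (Pm m' (ph p K e m b F' l)) z := fun i => by
    simp only [Dc, Pm_sub, mul_sub, avg_sub]
  have h4 : ∑ i, (syn a (cc p K e m a F l m' z) i - syn b (cc p K e m b F' l m' z) i) ^ 2 ≤
      ∑ i, (3 * Dc i (Pm m' (fun y => ph p K e m a F l y - ph p K e m b F' l y)) z ^ 2 +
        3 * avg (fun ε => sg (ε i) * Rr p K e m a F l m' z ε) ^ 2 +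
        3 * avg (fun ε => sg (ε i) * Rr p K e m b F' l m' z ε) ^ 2) :=
    sum_le_sum fun i _ => by
      rw [Dc_eq, Dc_eq, hD]
      set x := Dc i (Pm m' (ph p K e m a F l)) z - Dc i (Pm m' (ph p K e m b F' l)) z with hx
      set u := avg fun ε => sg (ε i) * Rr p K e m a F l m' z ε
      set v := avg fun ε => sg (ε i) * Rr p K e m b F' l m' z ε
      have : Dc i (Pm m' (ph p K e m a F l)) z - u - (Dc i (Pm m' (ph p K e m b F' l)) z - v) =
        x - u + v := by rw [hx]; ring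
      rw [this]
      nlinarith [sq_nonneg (x + u), sq_nonneg (x - v), sq_nonneg (u + v)]
  rw [sum_add_distrib, sum_add_distrib, ← mul_sum, ← mul_sum, ← mul_sum] at h4
  linarith

lemma loc_le (p : ℝ) (K : Finset ℤ) (e : κ → E) (m : ℕ) (a : κ → ι → ℝ)
    (F : E → Ω → ℝ) (l : Ω × K × Bool) (m' : ℕ) (z : ι → ℤ) :
    avg (fun ε : ι → Bool =>
      (Pm m' (ph p K e m a F l) (z + st ε) - Pm m' (ph p K e m a F l) z) ^ 2) ≤
      2 * ∑ i, syn a (cc p K e m a F l m' z) i ^ 2 +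
        2 * avg fun ε => Rr p K e m a F l m' z ε ^ 2 := by
  rw [← avg_lin_sq, ← avg_mul, ← avg_mul, ← avg_add]
  refine avg_mono fun ε => ?_
  have : Pm m' (ph p K e m a F l) (z + st ε) - Pm m' (ph p K e m a F l) z =
      ∑ i, syn a (cc p K e m a F l m' z) i * sg (ε i) + Rr p K e m a F l m' z ε := by
    rw [Rr]; ring
  rw [this]
  nlinarith [sq_nonneg (∑ i, syn a (cc p K e m a F l m' z) i * sg (ε i) - Rr p K e m a F l m' z ε)]

/-- averaged coordinate increments of the map itself -/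
noncomputable def Ga (e : κ → E) (m : ℕ) (a : κ → ι → ℝ) (F : E → Ω → ℝ)
    (m' : ℕ) (z : ι → ℤ) (ω : Ω) (j : κ) : ℝ :=
  Pm m' (fun y => QQ e m (fun x => |F (x + e j) ω - F x ω|) (JJ e a y)) z

omit [Fintype Ω] in
lemma Ga_nonneg (e : κ → E) (m : ℕ) (a : κ → ι → ℝ) (F : E → Ω → ℝ)
    (m' : ℕ) (z : ι → ℤ) (ω : Ω) (j : κ) : 0 ≤ Ga e m a F m' z ω j :=
  Pm_nonneg _ _ fun y => by rw [QQ_eq]; exact avg_nonneg fun _ => abs_nonneg _

omit [Fintype Ω] in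
lemma abs_cc_le (p : ℝ) (K : Finset ℤ) (e : κ → E) (m : ℕ) (a : κ → ι → ℝ) (F : E → Ω → ℝ)
    (l : Ω × K × Bool) (m' : ℕ) (z : ι → ℤ) (j : κ) :
    |cc p K e m a F l m' z j| ≤ amp p l.2.1 * w2 l.2.1 * Ga e m a F m' z l.1 j := by
  rw [cc, Ga, ← Pm_mul]
  refine (abs_Pm_le _ _ _).trans (Pm_mono _ _ fun y => ?_)
  rw [QQ_eq, QQ_eq, QQ_eq, ← avg_sub, ← avg_mul]
  refine (abs_avg_le _).trans (avg_mono fun t => ?_)
  rw [ft, ft, ← mul_sub, abs_mul, abs_of_pos (amp_pos _ _), mul_assoc]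
  refine mul_le_mul_of_nonneg_left ((abs_tr_sub_le _ _ _).trans (le_of_eq ?_)) (amp_pos _ _).le
  rw [← mul_sub, abs_mul, abs_of_pos (w2_pos _), add_right_comm]

lemma Ga_sum {p D : ℝ} (hp1 : 1 ≤ p) (e : κ → E) (he1 : ∀ j, ‖e j‖ ^ p = 1) (m : ℕ) [NeZero m]
    (a : κ → ι → ℝ) (F : E → Ω → ℝ)
    (hF : ∀ x x', ∑ ω, |F x ω - F x' ω| ^ p ≤ D ^ p * ‖x - x'‖ ^ p) (m' : ℕ) (z : ι → ℤ) :
    ∑ ω, ∑ j, Ga e m a F m' z ω j ^ p ≤ Fintype.card κ * D ^ p := by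
  rw [sum_comm]
  refine le_trans (sum_le_sum (g := fun _ => D ^ p) fun j _ => ?_) (by simp)
  have h1 : ∀ ω, Ga e m a F m' z ω j ^ p ≤ Pm m' (fun y => avg fun t : (κ → Fin m) × (κ → Fin m) =>
      |F (JJ e a y + (bx e t.1 + bx e t.2) + e j) ω - F (JJ e a y + (bx e t.1 + bx e t.2)) ω| ^ p)
      z := fun ω => by
    rw [← abs_of_nonneg (Ga_nonneg e m a F m' z ω j), Ga]
    refine (Pm_rpow_le hp1 _ _ _).trans (Pm_mono _ _ fun y => ?_)
    rw [QQ_eq]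
    refine (abs_avg_rpow_le hp1 _).trans (le_of_eq ?_)
    simp only [abs_abs]
  refine (sum_le_sum fun ω _ => h1 ω).trans ?_
  rw [← Pm_sum]
  refine Pm_le _ _ fun y => ?_
  rw [← avg_sum]
  refine avg_le fun t => (hF _ _).trans (le_of_eq ?_)
  rw [add_sub_cancel_left, he1, mul_one]

end H831Z.Un
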