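import Pool.Agent.H831Z.UAvg

/-! The random walk with independent sign vectors as steps. -/

namespace H831Z.Un

open Finset

variable {ι : Type*} [Fintype ι] [DecidableEq ι]

/-- The step attached to a sign pattern. -/
def st (ε : ι → Bool) : ι → ℤ := fun i => if ε i then 1 else -1

omit [Fintype ι] [DecidableEq ι] in
lemma st_cast (ε : ι → Bool) (i : ι) : ((st ε i : ℤ) : ℝ) = sg (ε i) := by
  unfold st sg; split_ifs <;> simp

omit [Fintype ι] [DecidableEq ι] in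
lemma abs_st (ε : ι → Bool) (i : ι) : |st ε i| = 1 := by
  unfold st; split_ifs <;> simp

/-- Pairing of a real vector with a lattice point. -/
def dot (c : ι → ℝ) (y : ι → ℤ) : ℝ := ∑ i, c i * (y i : ℝ)

omit [DecidableEq ι] in
lemma dot_add (c : ι → ℝ) (y z : ι → ℤ) : dot c (y + z) = dot c y + dot c z := by
  simp [dot, mul_add, sum_add_distrib]

omit [DecidableEq ι] in
lemma dot_neg (c : ι → ℝ) (y : ι → ℤ) : dot c (-y) = - dot c y := by
  simp [dot]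

omit [DecidableEq ι] in
lemma dot_sub (c : ι → ℝ) (y z : ι → ℤ) : dot c (y - z) = dot c y - dot c z := by
  rw [sub_eq_add_neg, dot_add, dot_neg]; ring

omit [DecidableEq ι] in
lemma dot_zero (c : ι → ℝ) : dot c 0 = 0 := by simp [dot]

omit [DecidableEq ι] in
lemma dot_st (c : ι → ℝ) (ε : ι → Bool) : dot c (st ε) = ∑ i, c i * sg (ε i) := by
  simp [dot, st_cast]

/-- `m` steps of the walk. -/
noncomputable def Pm : ℕ → ((ι → ℤ) → ℝ) → (ι → ℤ) → ℝ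
  | 0, φ, y => φ y
  | m + 1, φ, y => avg fun ε : ι → Bool => Pm m φ (y + st ε)

lemma Pm_zero (φ : (ι → ℤ) → ℝ) (y : ι → ℤ) : Pm 0 φ y = φ y := rfl
lemma Pm_succ (m : ℕ) (φ : (ι → ℤ) → ℝ) (y : ι → ℤ) :
    Pm (m + 1) φ y = avg fun ε : ι → Bool => Pm m φ (y + st ε) := rfl

lemma Pm_add (m : ℕ) (φ ψ : (ι → ℤ) → ℝ) (y : ι → ℤ) :
    Pm m (fun z => φ z + ψ z) y = Pm m φ y + Pm m ψ y := by
  induction m generalizing y with
  | zero => rfl
  | succ m ih => simp only [Pm_succ, ih, avg_add]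

lemma Pm_sub (m : ℕ) (φ ψ : (ι → ℤ) → ℝ) (y : ι → ℤ) :
    Pm m (fun z => φ z - ψ z) y = Pm m φ y - Pm m ψ y := by
  induction m generalizing y with
  | zero => rfl
  | succ m ih => simp only [Pm_succ, ih, avg_sub]

lemma Pm_mul (m : ℕ) (c : ℝ) (φ : (ι → ℤ) → ℝ) (y : ι → ℤ) :
    Pm m (fun z => c * φ z) y = c * Pm m φ y := by
  induction m generalizing y with
  | zero => rfl
  | succ m ih => simp only [Pm_succ, ih, avg_mul]

lemma Pm_const (m : ℕ) (c : ℝ) (y : ι → ℤ) : Pm m (fun _ => c) y = c := by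
  induction m generalizing y with
  | zero => rfl
  | succ m ih => simp only [Pm_succ, ih, avg_const]

lemma Pm_sum {T : Type*} (s : Finset T) (m : ℕ) (φ : T → (ι → ℤ) → ℝ) (y : ι → ℤ) :
    Pm m (fun z => ∑ t ∈ s, φ t z) y = ∑ t ∈ s, Pm m (φ t) y := by
  induction m generalizing y with
  | zero => rfl
  | succ m ih => simp only [Pm_succ, ih, avg_sum]

lemma Pm_avg {Ω : Type*} [Fintype Ω] (m : ℕ) (φ : Ω → (ι → ℤ) → ℝ) (y : ι → ℤ) :
    Pm m (fun z => avg fun ω => φ ω z) y = avg fun ω => Pm m (φ ω) y := by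
  induction m generalizing y with
  | zero => rfl
  | succ m ih => simp only [Pm_succ, ih]; exact avg_comm _

lemma Pm_mono_box (m : ℕ) {φ ψ : (ι → ℤ) → ℝ} (y : ι → ℤ)
    (h : ∀ z, (∀ i, |z i - y i| ≤ m) → φ z ≤ ψ z) : Pm m φ y ≤ Pm m ψ y := by
  induction m generalizing y with
  | zero => exact h y (by simp)
  | succ m ih =>
    simp only [Pm_succ]
    refine avg_mono fun ε => ih _ fun z hz => h z fun i => ?_
    have h1 := hz i
    have h2 := abs_st ε i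
    have : z i - y i = (z i - (y + st ε) i) + st ε i := by simp only [Pi.add_apply]; ring
    rw [this]
    refine (abs_add_le _ _).trans ?_
    push_cast; omega

lemma Pm_mono (m : ℕ) {φ ψ : (ι → ℤ) → ℝ} (y : ι → ℤ) (h : ∀ z, φ z ≤ ψ z) :
    Pm m φ y ≤ Pm m ψ y := Pm_mono_box m y fun z _ => h z

lemma Pm_le (m : ℕ) {φ : (ι → ℤ) → ℝ} {c : ℝ} (y : ι → ℤ) (h : ∀ z, φ z ≤ c) : Pm m φ y ≤ c :=
  (Pm_mono m y h).trans (Pm_const m c y).le

lemma Pm_nonneg (m : ℕ) {φ : (ι → ℤ) → ℝ} (y : ι → ℤ) (h : ∀ z, 0 ≤ φ z) : 0 ≤ Pm m φ y :=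
  (Pm_const m 0 y).ge.trans (Pm_mono m y h)

lemma Pm_shift (m : ℕ) (φ : (ι → ℤ) → ℝ) (v y : ι → ℤ) :
    Pm m (fun z => φ (z + v)) y = Pm m φ (y + v) := by
  induction m generalizing y with
  | zero => rfl
  | succ m ih => simp only [Pm_succ, ih, add_right_comm]

lemma Pm_Pm (a b : ℕ) (φ : (ι → ℤ) → ℝ) (y : ι → ℤ) : Pm a (Pm b φ) y = Pm (a + b) φ y := by
  induction a generalizing y with
  | zero => simp [Pm_zero]
  | succ a ih => rw [Nat.succ_add]; simp only [Pm_succ, ih]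

lemma Pm_neg (m : ℕ) (φ : (ι → ℤ) → ℝ) (y : ι → ℤ) :
    Pm m (fun z => φ (-z)) y = Pm m φ (-y) := by
  induction m generalizing y with
  | zero => rfl
  | succ m ih =>
    simp only [Pm_succ, ih]
    let e : (ι → Bool) ≃ (ι → Bool) := ⟨fun ε i => !ε i, fun ε i => !ε i, fun ε => by simp,
      fun ε => by simp⟩
    rw [← avg_equiv e]
    congr 1; funext ε; congr 1; funext i
    cases h : ε i <;> simp [e, st, h] <;> ring

lemma Pm_jensen (Φ : ℝ → ℝ) (hΦ : ∀ g : (ι → Bool) → ℝ, Φ (avg g) ≤ avg fun ε => Φ (g ε))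
    (m : ℕ) (φ : (ι → ℤ) → ℝ) (y : ι → ℤ) : Φ (Pm m φ y) ≤ Pm m (fun z => Φ (φ z)) y := by
  induction m generalizing y with
  | zero => exact le_rfl
  | succ m ih => exact (hΦ _).trans (avg_mono fun ε => ih _)

lemma Pm_sq_le (m : ℕ) (φ : (ι → ℤ) → ℝ) (y : ι → ℤ) :
    Pm m φ y ^ 2 ≤ Pm m (fun z => φ z ^ 2) y :=
  Pm_jensen (fun t => t ^ 2) (fun g => sq_avg_le g) m φ y

lemma abs_Pm_le (m : ℕ) (φ : (ι → ℤ) → ℝ) (y : ι → ℤ) :
    |Pm m φ y| ≤ Pm m (fun z => |φ z|) y :=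
  Pm_jensen (fun t => |t|) (fun g => abs_avg_le g) m φ y

lemma Pm_rpow_le {p : ℝ} (hp : 1 ≤ p) (m : ℕ) (φ : (ι → ℤ) → ℝ) (y : ι → ℤ) :
    |Pm m φ y| ^ p ≤ Pm m (fun z => |φ z| ^ p) y :=
  Pm_jensen (fun t => |t| ^ p) (fun g => abs_avg_rpow_le hp g) m φ y

/-- The first-degree coefficient of one step. -/
noncomputable def Dc (i : ι) (ψ : (ι → ℤ) → ℝ) (y : ι → ℤ) : ℝ :=
  avg fun ε : ι → Bool => sg (ε i) * ψ (y + st ε)

lemma Dc_succ (i : ι) (m : ℕ) (φ : (ι → ℤ) → ℝ) (y : ι → ℤ) :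
    Dc i (Pm (m + 1) φ) y = avg fun ε : ι → Bool => Dc i (Pm m φ) (y + st ε) := by
  simp only [Dc, Pm_succ, ← avg_mul]
  rw [avg_comm]
  simp only [add_right_comm]

lemma bessel_multi (m : ℕ) (φ : (ι → ℤ) → ℝ) (y : ι → ℤ) :
    ((m : ℝ) + 1) * ∑ i, Dc i (Pm m φ) y ^ 2 ≤
      Pm (m + 1) (fun z => φ z ^ 2) y - Pm (m + 1) φ y ^ 2 := by
  induction m generalizing y with
  | zero =>
    have := bessel (fun ε : ι → Bool => φ (y + st ε))
    simp only [Pm_succ, Pm_zero, Dc, Nat.cast_zero, zero_add, one_mul]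
    linarith
  | succ m ih =>
    have h1 := bessel (fun ε : ι → Bool => Pm (m + 1) φ (y + st ε))
    have h2 := avg_mono fun ε : ι → Bool => ih (y + st ε)
    rw [avg_mul, avg_sub, avg_sum] at h2
    have h3 : ∑ i, Dc i (Pm (m + 1) φ) y ^ 2 ≤
        ∑ i, avg (fun ε : ι → Bool => Dc i (Pm m φ) (y + st ε) ^ 2) :=
      sum_le_sum fun i _ => by rw [Dc_succ]; exact sq_avg_le _
    have h4 : ((m : ℝ) + 1) * ∑ i, Dc i (Pm (m + 1) φ) y ^ 2 ≤
        ((m : ℝ) + 1) * ∑ i, avg (fun ε : ι → Bool => Dc i (Pm m φ) (y + st ε) ^ 2) :=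
      mul_le_mul_of_nonneg_left h3 (by positivity)
    rw [Pm_succ (m + 1) (fun z => φ z ^ 2), Pm_succ (m + 1) φ]
    have h5 : ∑ i, avg (fun ε : ι → Bool => sg (ε i) * Pm (m + 1) φ (y + st ε)) ^ 2 =
        ∑ i, Dc i (Pm (m + 1) φ) y ^ 2 := rfl
    push_cast
    linarith

lemma bessel_multi' (m : ℕ) (φ : (ι → ℤ) → ℝ) (y : ι → ℤ) :
    ∑ i, Dc i (Pm m φ) y ^ 2 ≤ Pm (m + 1) (fun z => φ z ^ 2) y / ((m : ℝ) + 1) := by
  rw [le_div_iff₀ (by positivity)]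
  have := bessel_multi m φ y
  nlinarith [sq_nonneg (Pm (m + 1) φ y)]

/-- The variance of a family after `k` steps, from the one-step increments. -/
lemma var_up {Λ : Type*} (s : Finset Λ) (Φ : Λ → (ι → ℤ) → ℝ) (g : (ι → ℤ) → ℝ) (α β : ℝ)
    (h : ∀ m z, ∑ l ∈ s, avg (fun ε : ι → Bool => (Pm m (Φ l) (z + st ε) - Pm m (Φ l) z) ^ 2) ≤
      α + β * Pm (m + 1) g z) (k : ℕ) (y : ι → ℤ) :
    ∑ l ∈ s, (Pm k (fun z => Φ l z ^ 2) y - Pm k (Φ l) y ^ 2) ≤ k * (α + β * Pm k g y) := by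
  induction k generalizing y with
  | zero => simp [Pm_zero]
  | succ k ih =>
    have h1 := avg_mono fun ε : ι → Bool => ih (y + st ε)
    rw [avg_mul, avg_add, avg_const, avg_mul, avg_sum, ← Pm_succ] at h1
    simp only [avg_sub] at h1
    have h2 : ∀ l ∈ s, Pm (k + 1) (fun z => Φ l z ^ 2) y - Pm (k + 1) (Φ l) y ^ 2 ≤
        ((avg fun ε : ι → Bool => Pm k (fun z => Φ l z ^ 2) (y + st ε)) -
          avg fun ε : ι → Bool => Pm k (Φ l) (y + st ε) ^ 2) +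
        avg (fun ε : ι → Bool => (Pm k (Φ l) (y + st ε) - Pm k (Φ l) y) ^ 2) := by
      intro l _
      have := avg_var_le (fun ε : ι → Bool => Pm k (Φ l) (y + st ε)) (Pm k (Φ l) y)
      rw [Pm_succ, Pm_succ]; linarith
    have h3 := sum_le_sum h2
    rw [sum_add_distrib] at h3
    have h4 := h k y
    push_cast
    linarith

lemma sym_var (k : ℕ) (Φ : (ι → ℤ) → ℝ) :
    Pm k (fun z => (Φ z - Φ (-z)) ^ 2) 0 ≤ 4 * (Pm k (fun z => Φ z ^ 2) 0 - Pm k Φ 0 ^ 2) := by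
  set c := Pm k Φ 0 with hc
  have h1 : Pm k (fun z => (Φ z - Φ (-z)) ^ 2) 0 ≤
      Pm k (fun z => 2 * (Φ z - c) ^ 2 + 2 * (fun w => (Φ w - c) ^ 2) (-z)) 0 :=
    Pm_mono k 0 fun z => by nlinarith [sq_nonneg (Φ z - c + (Φ (-z) - c))]
  rw [Pm_add, Pm_mul, Pm_mul, Pm_neg k (fun w => (Φ w - c) ^ 2), neg_zero] at h1
  have h2 : Pm k (fun w => (Φ w - c) ^ 2) 0 = Pm k (fun z => Φ z ^ 2) 0 - c ^ 2 := by
    have : (fun w => (Φ w - c) ^ 2) = fun w => (Φ w ^ 2 - (2 * c) * Φ w) + c ^ 2 := by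
      funext w; ring
    rw [this, Pm_add, Pm_sub, Pm_mul, Pm_const, ← hc]; ring
  linarith

lemma Pm_dot_sq (c : ι → ℝ) (t : ℝ) (m : ℕ) (y : ι → ℤ) :
    Pm m (fun z => (dot c z - t) ^ 2) y = (dot c y - t) ^ 2 + m * ∑ i, c i ^ 2 := by
  induction m generalizing y with
  | zero => simp [Pm_zero]
  | succ m ih =>
    simp only [Pm_succ, ih, dot_add, dot_st]
    have : (fun ε : ι → Bool => (dot c y + ∑ i, c i * sg (ε i) - t) ^ 2 + m * ∑ i, c i ^ 2) =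
        fun ε => (((dot c y - t) ^ 2 + m * ∑ i, c i ^ 2) +
          (2 * (dot c y - t)) * ∑ i, c i * sg (ε i)) + (∑ i, c i * sg (ε i)) ^ 2 := by
      funext ε; ring
    rw [this, avg_add, avg_add, avg_const, avg_mul, avg_lin, avg_lin_sq]
    push_cast; ring

lemma Pm_exp_le (c : ι → ℝ) (m : ℕ) (y : ι → ℤ) :
    Pm m (fun z => Real.exp (dot c z)) y ≤ Real.exp (dot c y + m * ((∑ i, c i ^ 2) / 2)) := by
  induction m generalizing y with
  | zero => simp [Pm_zero]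
  | succ m ih =>
    rw [Pm_succ]
    refine (avg_mono fun ε => ih _).trans ?_
    have : (fun ε : ι → Bool => Real.exp (dot c (y + st ε) + m * ((∑ i, c i ^ 2) / 2))) =
        fun ε => Real.exp (dot c y + m * ((∑ i, c i ^ 2) / 2)) *
          Real.exp (∑ i, c i * sg (ε i)) := by
      funext ε; rw [← Real.exp_add, dot_add, dot_st]; congr 1; ring
    rw [this, avg_mul]
    refine (mul_le_mul_of_nonneg_left (avg_exp_le c) (Real.exp_pos _).le).trans (le_of_eq ?_)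
    rw [← Real.exp_add]; congr 1; push_cast; ring

end H831Z.Un
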